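import Pool.Agent.Helper78.OE.GoalsC3
import Pool.Agent.Helper75.OE.GoalsA2

/-!
Project OE: counting goals (packets OE-CHU, OE-CHP, FBC).
-/

open MeasureTheory Pool.Agent.Helper73.OE Pool.Agent.Helper73.OE.Sys
open scoped ENNReal

namespace Pool.Agent.Helper78.OE

variable {H S L : Type} [Group H] (X : Sys H S L) [Fintype S] [Fintype L]

theorem ind_eq_ite (p : Prop) [Decidable p] : ind p = if p then 1 else 0 := by
  by_cases h : p
  · rw [ind_true h, if_pos h]
  · rw [ind_false h, if_neg h]

open Classical in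
/-- Packet OE-CHP. -/
theorem chp (h : Pool.Agent.Helper75.OE.A_PICK) : Pool.Agent.Helper75.OE.A_CHP := by
  intro H S L _ _ X P O v s f y hy
  subst hy
  refine Finset.card_bij'
    (i := fun u hu => ((Finset.mem_filter.1 hu).2).choose)
    (j := fun i hi => ((h _ P.cap (X.AS P O f v s (X.tau (f (X.nb v s) (X.bar s))))).2
      ((Finset.mem_filter.1 hi).2.1) i (Finset.mem_filter.1 hi).1).choose) ?_ ?_ ?_ ?_
  · intro u hu
    have hc := ((Finset.mem_filter.1 hu).2).choose_spec
    set i := ((Finset.mem_filter.1 hu).2).choose with hi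
    have h1 := (h _ P.cap (X.AS P O f v s (X.tau (f (X.nb v s) (X.bar s))))).1 u i hc.1
    rw [Finset.mem_filter]
    exact ⟨h1.1, h1.2.1, hc.2⟩
  · intro i hi
    have hc := ((h _ P.cap (X.AS P O f v s (X.tau (f (X.nb v s) (X.bar s))))).2
      ((Finset.mem_filter.1 hi).2.1) i (Finset.mem_filter.1 hi).1).choose_spec
    set u := ((h _ P.cap (X.AS P O f v s (X.tau (f (X.nb v s) (X.bar s))))).2
      ((Finset.mem_filter.1 hi).2.1) i (Finset.mem_filter.1 hi).1).choose with hu
    have h1 := (h _ P.cap (X.AS P O f v s (X.tau (f (X.nb v s) (X.bar s))))).1 u i hc.1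
    rw [Finset.mem_filter, Finset.mem_range]
    exact ⟨lt_of_lt_of_le h1.2.2 h1.2.1, i, hc.1, (Finset.mem_filter.1 hi).2.2⟩
  · intro u hu
    have hc := ((Finset.mem_filter.1 hu).2).choose_spec
    set i := ((Finset.mem_filter.1 hu).2).choose with hi
    have h1 := (h _ P.cap (X.AS P O f v s (X.tau (f (X.nb v s) (X.bar s))))).1 u i hc.1
    have h2 := (h _ P.cap (X.AS P O f v s (X.tau (f (X.nb v s) (X.bar s))))).2 h1.2.1 i h1.1
    exact (h2.choose_spec.2 u hc.1).symm
  · intro i hi
    have hc := ((h _ P.cap (X.AS P O f v s (X.tau (f (X.nb v s) (X.bar s))))).2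
      ((Finset.mem_filter.1 hi).2.1) i (Finset.mem_filter.1 hi).1).choose_spec
    set u := ((h _ P.cap (X.AS P O f v s (X.tau (f (X.nb v s) (X.bar s))))).2
      ((Finset.mem_filter.1 hi).2.1) i (Finset.mem_filter.1 hi).1).choose with hu
    have h4 : ∃ i, X.Cheap P O v s u f i := ⟨i, hc.1, (Finset.mem_filter.1 hi).2.2⟩
    have h3 := h4.choose_spec
    have : some h4.choose = some i := by rw [← h3.1, hc.1]
    exact Option.some.inj this

open Classical in
/-- The number of the seeds which give a fallback. -/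
theorem fbc (h : Pool.Agent.Helper75.OE.A_CHP) : FBC X := by
  intro P O v s f
  have h1 := h H S L X P O v s f _ rfl
  have h2 : ∑ u ∈ Finset.range P.cap, ind (¬ ∃ i, X.Cheap P O v s u f i) =
      (((Finset.range P.cap).filter fun u => ¬ ∃ i, X.Cheap P O v s u f i).card : ℝ≥0∞) := by
    rw [Finset.card_filter]
    push_cast
    refine Finset.sum_congr rfl fun u _ => ?_
    rw [ind_eq_ite]
  rw [h2]
  have h3 := Finset.card_filter_add_card_filter_not (s := Finset.range P.cap)
    (fun u => ∃ i, X.Cheap P O v s u f i)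
  rw [Finset.card_range] at h3
  congr 1
  have h4 : (GAf X P O v s (X.tau (f (X.nb v s) (X.bar s))) f).card =
      ((Finset.range P.cap).filter fun u => ∃ i, X.Cheap P O v s u f i).card := by
    rw [h1]; rfl
  omega

theorem tsum_ind_le (A : Finset H) {p : H → Prop} (h : ∀ z, z ∉ A → ¬ p z) :
    ∑' z : H, ind (p z) ≤ (A.card : ℝ≥0∞) := by
  rw [tsum_eq_sum (s := A) (fun z hz => ind_false (h z hz))]
  refine le_trans (Finset.sum_le_sum fun z _ => ind_le_one (p z)) ?_
  rw [Finset.sum_const, nsmul_eq_mul, mul_one]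

/-- Packet OE-CHU. -/
theorem chu (h1 : Pool.Agent.Helper75.OE.A_CH1) (h2 : Pool.Agent.Helper75.OE.A_CH2)
    (h : Pool.Agent.Helper75.OE.A_PICK) : CHU X := by
  classical
  intro P O v s u f
  by_cases he : X.tau (f (X.nb v s) (X.bar s)) = f v s
  · have : ∀ z : H, ind (X.Upd P O v s u f z ≠ f z) = 0 := by
      intro z
      apply ind_false
      rw [not_not]
      unfold Sys.Upd
      rw [if_pos he]
    rw [tsum_congr this, tsum_zero]
    exact zero_le
  · rw [ind_true (Ne.symm he), one_mul]
    by_cases hc : ∃ i, X.Cheap P O v s u f i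
    · have hi := hc.choose_spec
      have hA := (h _ P.cap _).1 u _ hi.1
      obtain ⟨A, hA1, hA2⟩ := h1 H S L X P O hc.choose v s _ f hA.1
      have h3 : ∀ z, z ∉ A → ¬ (X.Upd P O v s u f z ≠ f z) := by
        intro z hz
        rw [not_not]
        unfold Sys.Upd
        rw [if_neg he, dif_pos hc]
        exact hA2 z hz
      refine le_trans (tsum_ind_le A h3) (le_trans ?_ le_self_add)
      exact_mod_cast hA1
    · rw [ind_true hc, one_mul]
      refine le_trans ?_ le_add_self
      have h4 := h2 H S L X O (X.nb v s) (X.bar s) (X.tau (f v s)) f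
      have h5 : ∀ z : H, ind (X.Upd P O v s u f z ≠ f z) =
          if X.flip O (X.nb v s) (X.bar s) (X.tau (f v s)) f z ≠ f z then (1 : ℝ≥0∞) else 0 := by
        intro z
        have : X.Upd P O v s u f z = X.flip O (X.nb v s) (X.bar s) (X.tau (f v s)) f z := by
          unfold Sys.Upd
          rw [if_neg he, dif_neg hc]
        rw [this, ind_eq_ite]
      have h6 : ∀ r : ℕ, ind (X.Long O f r (X.nb v s) (X.bar s) (X.tau (f v s))) =
          if X.Long O f r (X.nb v s) (X.bar s) (X.tau (f v s)) then (1 : ℝ≥0∞) else 0 :=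
        fun r => ind_eq_ite _
      rw [tsum_congr h5, tsum_congr h6]
      refine le_trans (le_of_eq (tsum_congr fun z => ?_)) h4
      congr

end Pool.Agent.Helper78.OE
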