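import Pool.Agent.Helper78.OE.CostC

/-!
Project OE: exchange of two labels at a closed edge (packet OE-ESYM).
-/

open MeasureTheory Pool.Agent.Helper73.OE
open scoped ENNReal

namespace Pool.Agent.Helper78.OE

variable {H S L : Type} [Group H] (X : Sys H S L) [Fintype S] [Fintype L]

open Classical in
theorem MA_pair {ε : ℝ} {η : Env H S} {v : H} {s : S} (hc : ¬ X.Op ε η v s) (f : Cfg H S L) :
    X.MA (X.Op ε η) (({v, X.nb v s} : Finset H) : Set H) f := by
  intro z r hz hr ho
  exfalso
  simp only [Finset.coe_insert, Finset.coe_singleton, Set.mem_insert_iff,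
    Set.mem_singleton_iff] at hz hr
  rcases hz with hz | hz
  · subst hz
    rcases hr with hr | hr
    · exact X.nb_ne _ _ hr
    · have := X.nb_inj hr
      subst this
      exact hc ho
  · subst hz
    rcases hr with hr | hr
    · have h2 : X.nb (X.nb v s) r = X.nb (X.nb v s) (X.bar s) := by rw [hr, X.nb_bar]
      have := X.nb_inj h2
      subst this
      rw [← Op_symm] at ho
      exact hc ho
    · exact X.nb_ne _ _ hr

open Classical in
theorem starSum_swap {ε : ℝ} {η : Env H S} {v : H} {s : S} (hc : ¬ X.Op ε η v s) (x y : L) :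
    X.starSum {v, X.nb v s} (X.Op ε η)
      (fun q => ind (q v s = x) * ind (X.tau (q (X.nb v s) (X.bar s)) = y)) =
    X.starSum {v, X.nb v s} (X.Op ε η)
      (fun q => ind (q v s = y) * ind (X.tau (q (X.nb v s) (X.bar s)) = y)) := by
  unfold Sys.starSum
  have hvm : v ∈ ({v, X.nb v s} : Finset H) := by simp
  have hnm : X.nb v s ∈ ({v, X.nb v s} : Finset H) := by simp
  let e : (↥({v, X.nb v s} : Finset H) → (S ≃ L)) ≃ (↥({v, X.nb v s} : Finset H) → (S ≃ L)) :=
    { toFun := fun f => Function.update f ⟨v, hvm⟩ ((f ⟨v, hvm⟩).trans (Equiv.swap x y))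
      invFun := fun f => Function.update f ⟨v, hvm⟩ ((f ⟨v, hvm⟩).trans (Equiv.swap x y))
      left_inv := by
        intro f
        simp only [Function.update_self, Function.update_idem]
        have : ((f ⟨v, hvm⟩).trans (Equiv.swap x y)).trans (Equiv.swap x y) = f ⟨v, hvm⟩ := by
          ext z; simp
        rw [this, Function.update_eq_self]
      right_inv := by
        intro f
        simp only [Function.update_self, Function.update_idem]
        have : ((f ⟨v, hvm⟩).trans (Equiv.swap x y)).trans (Equiv.swap x y) = f ⟨v, hvm⟩ := by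
          ext z; simp
        rw [this, Function.update_eq_self] }
  refine Fintype.sum_equiv e _ _ ?_
  intro f
  rw [if_pos (MA_pair X hc _), if_pos (MA_pair X hc _)]
  have h1 : X.glue {v, X.nb v s} f v = f ⟨v, hvm⟩ := X.glue_mem _ f hvm
  have h2 : X.glue {v, X.nb v s} f (X.nb v s) = f ⟨X.nb v s, hnm⟩ := X.glue_mem _ f hnm
  have h3 : X.glue {v, X.nb v s} (e f) v = (f ⟨v, hvm⟩).trans (Equiv.swap x y) := by
    rw [X.glue_mem _ (e f) hvm]
    show Function.update f ⟨v, hvm⟩ _ _ = _
    rw [Function.update_self]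
  have h4 : X.glue {v, X.nb v s} (e f) (X.nb v s) = f ⟨X.nb v s, hnm⟩ := by
    rw [X.glue_mem _ (e f) hnm]
    show Function.update f ⟨v, hvm⟩ _ _ = _
    rw [Function.update_of_ne]
    intro h
    exact X.nb_ne v s (congrArg Subtype.val h)
  beta_reduce
  rw [h1, h2, h3, h4]
  congr 1
  apply ind_congr
  rw [Equiv.trans_apply, Equiv.swap_apply_eq_iff, Equiv.swap_apply_right]

theorem esym (ε : ℝ) : ESYM X ε := by
  classical
  intro μ h b hb hb0 v s x y
  have hloc : ∀ x y : L, ∀ q q' : Cfg H S L, ∀ η : Env H S,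
      (∀ z ∈ ({v, X.nb v s} : Finset H), q z = q' z) →
      Gxy X b v s x y (q, η) = Gxy X b v s x y (q', η) := by
    intro x y q q' η hq
    have e1 := hq v (by simp)
    have e2 := hq (X.nb v s) (by simp)
    unfold Gxy
    simp only [e1, e2]
  rw [h v {v, X.nb v s} (PC_pair X v s) _ (measurable_Gxy X hb v s x y) (hloc x y),
    h v {v, X.nb v s} (PC_pair X v s) _ (measurable_Gxy X hb v s y y) (hloc y y)]
  apply lintegral_congr
  intro η
  have key : ∀ x y : L, X.starSum {v, X.nb v s} (X.Op ε η) (fun q => Gxy X b v s x y (q, η)) =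
      b (η (v, s), η (X.rev (v, s))) * X.starSum {v, X.nb v s} (X.Op ε η)
        (fun q => ind (q v s = x) * ind (X.tau (q (X.nb v s) (X.bar s)) = y)) := by
    intro x y
    unfold Sys.starSum Gxy
    rw [Finset.mul_sum]
    refine Finset.sum_congr rfl fun f _ => ?_
    split_ifs
    · rfl
    · rw [mul_zero]
  unfold Sys.starAvg
  congr 1
  rw [key, key]
  by_cases hc : X.Op ε η v s
  · rw [hb0 (η (v, s), η (X.rev (v, s))) hc, zero_mul, zero_mul]
  · rw [starSum_swap X hc x y]

end Pool.Agent.Helper78.OE
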