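import Pool.Agent.Helper78.OE.MkCtx

/-!
Project OE: independence of the labels of an edge and the whole side of the edge (OE-STRIP2).
-/

open MeasureTheory Pool.Agent.Helper73.OE
open scoped ENNReal

namespace Pool.Agent.Helper78.OE

variable {H S L : Type} [Group H] (X : Sys H S L) [Fintype S] [Fintype L]

open Classical in
/-- The state restricted to `A`. -/
noncomputable def patch (A : Set H) (w : St H S L) : St H S L :=
  (fun z => if z ∈ A then w.1 z else X.e0,
    fun e => if e.1 ∈ A ∧ X.nb e.1 e.2 ∈ A then w.2 e else 0)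

theorem measurable_patch (A : Set H) : Measurable (patch X A) := by
  classical
  refine Measurable.prodMk ?_ ?_
  · refine measurable_pi_lambda _ fun z => ?_
    by_cases hz : z ∈ A
    · simp only [hz, if_true]
      exact (measurable_pi_apply z).comp measurable_fst
    · simp only [hz, if_false]
      exact measurable_const
  · refine measurable_pi_lambda _ fun e => ?_
    by_cases he : e.1 ∈ A ∧ X.nb e.1 e.2 ∈ A
    · simp only [he, if_true, and_self]
      exact (measurable_pi_apply e).comp measurable_snd
    · simp only [he, if_false]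
      exact measurable_const

theorem patch_dep {α : Type} {A : Set H} {G : St H S L → α} (h : X.DepOn A G) (w : St H S L) :
    G (patch X A w) = G w := by
  classical
  apply h
  · intro z hz
    show (if z ∈ A then w.1 z else X.e0) = w.1 z
    rw [if_pos hz]
  · intro z s hz hs
    show (if z ∈ A ∧ X.nb z s ∈ A then w.2 (z, s) else 0) = w.2 (z, s)
    rw [if_pos ⟨hz, hs⟩]

/-- A cylinder condition on the restricted state depends on a finite piece. -/
theorem cyl_dep (v : H) (t : S) (F1 : Finset H) (S1 : Set ((i : F1) → (S ≃ L)))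
    (F2 : Finset (H × S)) (S2 : Set ((i : F2) → unitInterval × unitInterval)) :
    ∃ r : ℕ, X.DepOn (X.Sd v t ∩ X.ball v r) (fun w : St H S L =>
      ind (patch X (X.Sd v t) w ∈ (cylinder F1 S1 ×ˢ cylinder F2 S2 :
        Set (St H S L)))) := by
  classical
  refine ⟨(F1.sup (fun z => X.dist v z)) + (F2.sup (fun e => X.dist v e.1)) + 1, ?_⟩
  set r := (F1.sup (fun z => X.dist v z)) + (F2.sup (fun e => X.dist v e.1)) + 1 with hr
  intro w w' h1 h2
  apply ind_congr
  have e1 : F1.restrict (patch X (X.Sd v t) w).1 = F1.restrict (patch X (X.Sd v t) w').1 := by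
    funext z
    show (if (z : H) ∈ X.Sd v t then w.1 z else X.e0) = if (z : H) ∈ X.Sd v t then w'.1 z else X.e0
    by_cases hz : (z : H) ∈ X.Sd v t
    · rw [if_pos hz, if_pos hz]
      refine h1 z ⟨hz, ?_⟩
      rw [X.mem_ball]
      have := Finset.le_sup (f := fun z => X.dist v z) z.2
      have h3 : X.dist v z ≤ F1.sup (fun z => X.dist v z) := this
      omega
    · rw [if_neg hz, if_neg hz]
  have e2 : F2.restrict (patch X (X.Sd v t) w).2 = F2.restrict (patch X (X.Sd v t) w').2 := by
    funext e
    show (if (e : H × S).1 ∈ X.Sd v t ∧ X.nb (e : H × S).1 (e : H × S).2 ∈ X.Sd v t then w.2 e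
      else 0) = if (e : H × S).1 ∈ X.Sd v t ∧ X.nb (e : H × S).1 (e : H × S).2 ∈ X.Sd v t then
        w'.2 e else 0
    by_cases he : (e : H × S).1 ∈ X.Sd v t ∧ X.nb (e : H × S).1 (e : H × S).2 ∈ X.Sd v t
    · rw [if_pos he, if_pos he]
      have h3 : X.dist v (e : H × S).1 ≤ F2.sup (fun e => X.dist v e.1) :=
        Finset.le_sup (f := fun e : H × S => X.dist v e.1) e.2
      refine h2 (e : H × S).1 (e : H × S).2 ⟨he.1, ?_⟩ ⟨he.2, ?_⟩
      · rw [X.mem_ball]; omega
      · rw [X.mem_ball]
        have := X.dist_nb_le v (e : H × S).1 (e : H × S).2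
        omega
    · rw [if_neg he, if_neg he]
  rw [Set.mem_prod, Set.mem_prod, mem_cylinder, mem_cylinder, mem_cylinder, mem_cylinder, e1, e2]

theorem spanning_cyl {ι : Type} (α : ι → Type) [∀ i, MeasurableSpace (α i)] :
    IsCountablySpanning (measurableCylinders α) :=
  ⟨fun _ => Set.univ, fun _ => univ_mem_measurableCylinders α, Set.iUnion_const _⟩

theorem strip2' (ε : ℝ) (h : STRIP1 X ε) : STRIP2 X ε := by
  classical
  intro μ hμ v t G hG hd φ hφ
  have hprob : IsProbabilityMeasure μ := ⟨star_prob X hμ⟩
  set A := X.Sd v t with hA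
  set lab : St H S L → (unitInterval × unitInterval) × (unitInterval × unitInterval) :=
    fun w => (w.2 (v, t), w.2 (X.rev (v, t))) with hlab
  have hlm : Measurable lab := ((measurable_pi_apply _).comp measurable_snd).prodMk
    ((measurable_pi_apply _).comp measurable_snd)
  have hpm := measurable_patch X A
  -- step A
  have stepA : ∀ C : Set ((unitInterval × unitInterval) × (unitInterval × unitInterval)),
      MeasurableSet C → (μ.restrict (lab ⁻¹' C)).map (patch X A) = (volume C) • μ.map (patch X A) := by
    intro C hC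
    have hfin1 : IsFiniteMeasure ((μ.restrict (lab ⁻¹' C)).map (patch X A)) := inferInstance
    have key : ∀ s : Set (St H S L), MeasurableSet s → (∃ r : ℕ, X.DepOn (A ∩ X.ball v r)
        (fun w : St H S L => ind (patch X A w ∈ s))) →
        (μ.restrict (lab ⁻¹' C)).map (patch X A) s = ((volume C) • μ.map (patch X A)) s := by
      intro s hs hr
      obtain ⟨r, hr⟩ := hr
      have hfinset : (A ∩ X.ball v r).Finite := (X.finite_ball v r).subset Set.inter_subset_right
      have hco : ((hfinset.toFinset : Finset H) : Set H) = A ∩ X.ball v r := hfinset.coe_toFinset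
      have hms : MeasurableSet {w : St H S L | patch X A w ∈ s} := hpm hs
      have h1 := h μ hμ v t hfinset.toFinset (by rw [hco]; exact X.PC_inter_ball (X.PC_Sd v t) r)
        (by
          rw [hfinset.mem_toFinset]
          exact fun h3 => X.nb_notMem_Sd v t h3.1)
        (fun w => ind (patch X A w ∈ s)) (measurable_ind hms) (by rw [hco]; exact hr)
        (C.indicator fun _ => 1) (measurable_const.indicator hC)
      have h2 : ∫⁻ x, C.indicator (fun _ => (1 : ℝ≥0∞)) x = volume C := by
        rw [lintegral_indicator hC, lintegral_const, one_mul, Measure.restrict_apply_univ]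
      rw [h2] at h1
      have h3 : ∫⁻ w, ind (patch X A w ∈ s) ∂μ = μ.map (patch X A) s := by
        rw [Measure.map_apply hpm hs]
        have : (fun w : St H S L => ind (patch X A w ∈ s)) =
            Set.indicator (patch X A ⁻¹' s) (fun _ => 1) := by
          funext w
          by_cases hw : patch X A w ∈ s
          · rw [ind_true hw, Set.indicator_of_mem (show w ∈ patch X A ⁻¹' s from hw)]
          · rw [ind_false hw, Set.indicator_of_notMem (show w ∉ patch X A ⁻¹' s from hw)]
        rw [this, lintegral_indicator (hpm hs), lintegral_const, one_mul,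
          Measure.restrict_apply_univ]
      have h4 : ∫⁻ w, ind (patch X A w ∈ s) * C.indicator (fun _ => (1 : ℝ≥0∞))
          (w.2 (v, t), w.2 (X.rev (v, t))) ∂μ = (μ.restrict (lab ⁻¹' C)).map (patch X A) s := by
        rw [Measure.map_apply hpm hs, Measure.restrict_apply (hpm hs)]
        have : (fun w : St H S L => ind (patch X A w ∈ s) * C.indicator (fun _ => (1 : ℝ≥0∞))
            (w.2 (v, t), w.2 (X.rev (v, t)))) =
            Set.indicator (patch X A ⁻¹' s ∩ lab ⁻¹' C) (fun _ => 1) := by
          funext w
          by_cases hw : patch X A w ∈ s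
          · by_cases hc : lab w ∈ C
            · rw [ind_true hw, Set.indicator_of_mem (show w ∈ patch X A ⁻¹' s ∩ lab ⁻¹' C from
                ⟨hw, hc⟩), Set.indicator_of_mem (show (w.2 (v, t), w.2 (X.rev (v, t))) ∈ C from hc),
                one_mul]
            · rw [Set.indicator_of_notMem (show w ∉ patch X A ⁻¹' s ∩ lab ⁻¹' C from
                fun h => hc h.2), Set.indicator_of_notMem
                (show (w.2 (v, t), w.2 (X.rev (v, t))) ∉ C from hc), mul_zero]
          · rw [ind_false hw, Set.indicator_of_notMem (show w ∉ patch X A ⁻¹' s ∩ lab ⁻¹' C from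
              fun h => hw h.1), zero_mul]
        rw [this, lintegral_indicator ((hpm hs).inter (hlm hC)), lintegral_const, one_mul,
          Measure.restrict_apply_univ]
      rw [← h4, h1, h3, Measure.smul_apply, smul_eq_mul, mul_comm]
    have hgen : @Prod.instMeasurableSpace (Cfg H S L) (Env H S) MeasurableSpace.pi
        MeasurableSpace.pi = MeasurableSpace.generateFrom
        (Set.image2 (fun x1 x2 => x1 ×ˢ x2) (measurableCylinders fun _ : H => S ≃ L)
          (measurableCylinders fun _ : H × S => unitInterval × unitInterval)) := by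
      rw [← generateFrom_prod_eq (spanning_cyl _) (spanning_cyl _),
        generateFrom_measurableCylinders, generateFrom_measurableCylinders]
    refine ext_of_generate_finite _ hgen
      (IsPiSystem.prod isPiSystem_measurableCylinders isPiSystem_measurableCylinders) ?_ ?_
    · rintro s ⟨s1, hs1, s2, hs2, rfl⟩
      obtain ⟨F1, S1, hS1, rfl⟩ := (mem_measurableCylinders _).1 hs1
      obtain ⟨F2, S2, hS2, rfl⟩ := (mem_measurableCylinders _).1 hs2
      exact key _ ((MeasurableSet.cylinder F1 hS1).prod (MeasurableSet.cylinder F2 hS2))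
        (cyl_dep X v t F1 S1 F2 S2)
    · exact key _ MeasurableSet.univ ⟨0, fun _ _ _ _ => rfl⟩
  -- step B
  have stepB : ∀ C : Set ((unitInterval × unitInterval) × (unitInterval × unitInterval)),
      MeasurableSet C → ∫⁻ w in lab ⁻¹' C, G w ∂μ = (volume C) * ∫⁻ w, G w ∂μ := by
    intro C hC
    have h1 : ∀ w, G w = G (patch X A w) := fun w => (patch_dep X hd w).symm
    rw [lintegral_congr h1, ← lintegral_map hG hpm, stepA C hC, lintegral_smul_measure,
      lintegral_map hG hpm, smul_eq_mul]
    rw [← lintegral_congr h1]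
  -- step C
  have stepC : (μ.withDensity G).map lab = (∫⁻ w, G w ∂μ) • volume := by
    ext C hC
    rw [Measure.map_apply hlm hC, withDensity_apply _ (hlm hC), stepB C hC, Measure.smul_apply,
      smul_eq_mul, mul_comm]
  have h5 : ∫⁻ w, G w * φ (w.2 (v, t), w.2 (X.rev (v, t))) ∂μ =
      ∫⁻ x, φ x ∂((μ.withDensity G).map lab) := by
    rw [lintegral_map hφ hlm]
    exact (lintegral_withDensity_eq_lintegral_mul μ hG (hφ.comp hlm)).symm
  rw [h5, stepC, lintegral_smul_measure, smul_eq_mul]

end Pool.Agent.Helper78.OE
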