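import Pool.Agent.Helper78.OE.CostE
import Pool.Agent.Helper78.OE.Esym
import Pool.Agent.Helper78.OE.Chu
import Pool.Agent.Helper78.OE.Strip2
import Pool.Agent.Helper75.OE.AsmAB
import Pool.Agent.Helper94.OE.NUM
import Pool.Agent.Helper70.OE.MEAS
import Pool.Agent.Helper8.OE.LAB
import Pool.Agent.Helper74.OE.STRIP1
import Pool.Agent.Helper56.OE.LOCB
import Pool.Agent.Helper56.OE.CH1
import Pool.Agent.Helper56.OE.SEC2
import Pool.Agent.Helper91.OE.SHIFT
import Pool.Agent.Helper31.OE.LONG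
import Pool.Agent.Helper53.OE.ARM
import Pool.Agent.Helper93.OE.AV0
import Pool.Agent.Helper93.OE.CH2
import Pool.Agent.Helper16.OE.SEC1
import Pool.Agent.Helper32.OE.SEC3
import Pool.Agent.Helper70.OE.NA2
import Pool.Agent.Helper9.OE.MOM
import Pool.Agent.Helper18.OE.Cheb
import Pool.Agent.Helper18.OE.Seed
import Pool.Agent.Helper33.OE.CHM
import Pool.Agent.Helper33.OE.TRL
import Pool.Agent.Helper36.OE.MGA
import Pool.Agent.Helper20.OE.TRB

/-!
Project OE, block C from the proved packets.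
-/

open MeasureTheory Pool.Agent.Helper73.OE
open scoped ENNReal

namespace Pool.Agent.Helper78.OE

theorem a_tloc : Pool.Agent.Helper75.OE.A_TLOC := Pool.Agent.Helper75.OE.Asm.ttloc

theorem a_trm : Pool.Agent.Helper75.OE.A_TRM := Pool.Agent.Helper75.OE.Asm.ttrm

theorem a_trb : Pool.Agent.Helper75.OE.A_TRB :=
  Pool.Agent.Helper20.OE.trb a_tloc a_trm Pool.Agent.Helper75.OE.Asm.ttri
    Pool.Agent.Helper75.OE.Asm.tbloc

theorem strip_all {H S L : Type} [Group H] [Countable H] [Fintype S] [Fintype L]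
    (X : Sys H S L) (ε : ℝ) : STRIP2 X ε :=
  strip2' X ε (Pool.Agent.Helper74.OE.strip1 X ε)

/-- Independence (4.1) in the form of the interface. -/
theorem ind_stmt : Ind_stmt := @ind_stmt_of @strip_all

/-- Block C, up to the packet HH. -/
theorem cost_stmt_of2
    (hHH : ∀ {H S L : Type} [Group H] [Countable H] [Fintype S] [Fintype L] (X : Sys H S L)
      {ε : ℝ} {μ : Measure (St H S L)}, Ctx X ε μ → MOM X ε μ → CHEB → ESYM X ε → TRL X ε μ →
      MGA X ε → HH X ε μ) : Cost_stmt := by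
  refine @cost_stmt_of (fun n hn => Pool.Agent.Helper94.OE.num n hn) Pool.Agent.Helper8.OE.lab
    ?_ ?_ ?_ ?_ ?_ ?_ ?_ ?_ ?_ ?_
  · intro H S L _ _ _ X
    exact Pool.Agent.Helper70.OE.meas X
  · intro H S L _ _ _ X
    exact Pool.Agent.Helper56.OE.locb X
  · intro H S L _ _ _ _ X ε
    exact strip_all X ε
  · intro H S L _ _ _ _ X ε μ C
    exact Pool.Agent.Helper31.OE.long X C (Pool.Agent.Helper91.OE.shift X C)
  · intro H S L _ _ _ _ X ε μ C
    have hS := Pool.Agent.Helper91.OE.shift X C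
    have hLo := Pool.Agent.Helper31.OE.long X C hS
    have hA := Pool.Agent.Helper53.OE.arm X C hLo
    have h0 := Pool.Agent.Helper93.OE.av0 X C hS hA
    have h1 := Pool.Agent.Helper16.OE.sec1 X C hA h0
    have h2 := Pool.Agent.Helper56.OE.sec2 X C hA h1
    have h3 := Pool.Agent.Helper32.OE.sec3 X C hS h2
    have hM := Pool.Agent.Helper9.OE.mom X C h0 h3 (Pool.Agent.Helper70.OE.na2 X)
    exact hHH X C hM Pool.Agent.Helper18.OE.cheb (esym X ε)
      (Pool.Agent.Helper33.OE.trl X C a_trb a_tloc)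
      (Pool.Agent.Helper36.OE.mga X C a_tloc a_trm)
  · intro H S L _ _ _ _ X ε μ C
    exact Pool.Agent.Helper36.OE.mga X C a_tloc a_trm
  · intro H S L _ _ _ X
    exact chu X Pool.Agent.Helper56.OE.ch1 Pool.Agent.Helper93.OE.ch2
      Pool.Agent.Helper75.OE.Asm.tpick
  · intro H S L _ _ _ X
    exact fbc X (chp Pool.Agent.Helper75.OE.Asm.tpick)
  · intro H S L _ _ _ _ X
    exact Pool.Agent.Helper33.OE.chm X (Pool.Agent.Helper70.OE.meas X)
      (Pool.Agent.Helper56.OE.locb X)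
  · exact fun H S => Pool.Agent.Helper18.OE.seed H S

end Pool.Agent.Helper78.OE
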