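import Pool.Agent.Helper78.OE.LawDefs

/-!
Project OE (MP_fc0446_an): goals of section 4, first part (packets OE-MEAS, OE-LAB, OE-STRIP1,
OE-STRIP2, OE-LOCB). Everything is for a fixed system `X : Sys H S L`.
-/

open MeasureTheory Pool.Agent.Helper73.OE
open scoped ENNReal

namespace Pool.Agent.Helper78.OE

variable {H S L : Type} [Group H] (X : Sys H S L)

/-- Packet OE-MEAS. theorem meas [Finite S] [Finite L] : MEAS X.
A function of the state which sees only the configuration and the edges on a finite set is
measurable (both for the open edges and for the open matched edges).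
PROOF. (L is finite, S is finite.) Let Λ be the finite set. The map w -> (w.1 restricted to Λ,
(z, s) in Λ x S -> Op ε w.2 z s [or Om ε w z s]) is measurable into the finite discrete type
(Λ → (S ≃ L)) × (Λ × S → Prop): the coordinates of w.1 are measurable (MeasurableSpace (S ≃ L) = ⊤), the set
{w | X.Op ε w.2 z s} is measurable (conditions on two coordinates (.1 : unitInterval)^2 ≤ ε), and {w | X.Mt w.1 z s}
is the union over pairs (σ, σ') of {w.1 (nb z s) = σ, w.1 z = σ'} (it needs Λ' = Λ ∪ neighbours, or simply prove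
measurability of {w | Om ..} directly). The function F factors through this map by the locality
hypothesis (choose for a point of the discrete type any pair (O, f) which restricts to it, e.g. extend by X.e0
and False), and every function on a finite (countable, discrete) type is measurable. -/
def MEAS : Prop :=
  ∀ {α : Type} [MeasurableSpace α] (F : Edges H S → Cfg H S L → α) (Λ : Set H), Λ.Finite →
    (∀ O O' f f', Agr X Λ O O' f f' → F O f = F O' f') → ∀ ε : ℝ,
      (Measurable fun w : St H S L => F (Om X ε w) w.1) ∧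
      (Measurable fun w : St H S L => F (X.Op ε w.2) w.1)

/-- Packet OE-LAB. theorem lab : LAB. Probabilities of the edge labels.
PROOF. For 0 ≤ ε ≤ 1: volume {a : unitInterval | (a:ℝ)^2 ≤ ε} = ofReal (sqrt ε) ((a:ℝ)^2 ≤ ε iff a ≤ sqrt ε, the
volume of unitInterval is the subtype measure, unitInterval.volume_apply or via
MeasureTheory.Measure.Subtype, the image is Icc 0 (sqrt ε)), so the measure of {x | x.1.1^2 ≤ ε and x.2.1^2 ≤ ε}
under the product of four intervals is ofReal (sqrt ε)^2 = ofReal ε (Measure.prod_prod, rectangles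
({a | a^2 ≤ ε} ×ˢ univ) ×ˢ ({a | a^2 ≤ ε} ×ˢ univ)). The total mass is 1. The complement has mass 1 - ε, and the set
{closed for ε} \ {closed for ε'} has mass ε - ε' (ε' ≤ ε, the sets are nested). -/
def LAB : Prop :=
  ∀ ε ε' : ℝ, 0 ≤ ε' → ε' ≤ ε → ε ≤ 1 →
    (∫⁻ x : (unitInterval × unitInterval) × (unitInterval × unitInterval),
      ind (¬ ((x.1.1 : ℝ) ^ 2 ≤ ε ∧ (x.2.1 : ℝ) ^ 2 ≤ ε)) = ENNReal.ofReal (1 - ε)) ∧
    (∫⁻ x : (unitInterval × unitInterval) × (unitInterval × unitInterval),
      ind (((x.1.1 : ℝ) ^ 2 ≤ ε ∧ (x.2.1 : ℝ) ^ 2 ≤ ε) ∧ ¬ ((x.1.1 : ℝ) ^ 2 ≤ ε' ∧ (x.2.1 : ℝ) ^ 2 ≤ ε'))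
        = ENNReal.ofReal (ε - ε'))

/-- Packet OE-STRIP1. theorem strip1 [Fintype S] [Fintype L] (ε : ℝ) : STRIP1 X ε. Independence of
the labels of an edge and of a finite piece of the configuration not containing both ends.
PROOF. e = (v, t), e' = rev e = (nb v t, bar t); e ≠ e' (rev_ne). Let EΛ = {(z, s) | z ∈ Λ, nb z s ∈ Λ}: a finite set of
directed edges which contains neither e nor e' (nb v t is not in Λ). Apply IsStar to F(q, η) = G(q, η) φ(η e, η e') with v and Λ
(F depends on q only through Λ as G is DepOn Λ): ∫ G φ dμ = ∫ A(η) φ(η e, η e') dlamE(η) where A(η) =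
starAvg Λ (Op ε η) (q ↦ G(q, η)) (a constant factor φ comes out of the finite sum starSum). A depends only on
the coordinates of η in EΛ: MA (Op ε η) Λ uses Op ε η z s with z, nb z s ∈ Λ, i.e. the coordinates (z,s) and rev (z,s), both in
EΛ, and G by DepOn. A is measurable (finite sum of measurable functions; {η | MA (Op ε η) Λ (glue f)} is a
finite intersection of measurable sets). Under lamE = infinitePi the coordinates are independent
(ProbabilityTheory.iIndepFun_infinitePi, iIndepFun.indepFun_finset, or infinitePi_map_restrict and Fubini),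
so ∫ A(η) φ(η e, η e') = ∫ A dlamE ∫ φ(η e, η e') dlamE; the pair (η e, η e') has the law volume.prod volume
(e ≠ e'); and ∫ A dlamE = ∫ G dμ by IsStar again. All functions are ≥ 0 (lintegral of a product of independent
functions: ProbabilityTheory.lintegral_mul_eq_lintegral_mul_lintegral_of_indepFun''). -/
def STRIP1 [Fintype S] [Fintype L] (ε : ℝ) : Prop :=
  ∀ μ : Measure (St H S L), X.IsStar ε μ → ∀ (v : H) (t : S) (Λ : Finset H), X.PC v (Λ : Set H) →
    X.nb v t ∉ Λ → ∀ G : St H S L → ℝ≥0∞, Measurable G → X.DepOn (Λ : Set H) G →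
    ∀ φ : (unitInterval × unitInterval) × (unitInterval × unitInterval) → ℝ≥0∞, Measurable φ →
      ∫⁻ w, G w * φ (w.2 (v, t), w.2 (X.rev (v, t))) ∂μ = (∫⁻ w, G w ∂μ) * ∫⁻ x, φ x

/-- Packet OE-STRIP2. theorem strip2 [Fintype S] [Fintype L] [Countable H] (ε : ℝ) (h : STRIP1 X ε) :
STRIP2 X ε. The same for functions which depend on the whole side Sd v t.
PROOF. μ is a probability measure (IsStar with F = 1, Λ = {v}: starSum of 1 is finite and not 0). A := Sd v t,
patch w := (z ↦ if z ∈ A then w.1 z else X.e0, (z,s) ↦ if z ∈ A and nb z s ∈ A then w.2 (z,s) else 0), measurable (coordinatewise),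
and G w = G (patch w) by DepOn. lab w := (w.2 (v,t), w.2 (rev (v,t))). To prove: patch and lab are independent under μ
and lab has the law volume: i.e. the finite measures ν₁ = μ.map (w ↦ (patch w, lab w)) and ν₂ = (μ.map patch).prod
volume agree. For a rectangle B × C it is enough that μ(patch ∈ B, lab ∈ C) = μ(patch ∈ B) volume C; for fixed C the family of
the B is a λ-system, and it contains the π-system of the B = B₁ ×ˢ B₂ with B₁, B₂ measurable cylinders (of (H → (S ≃ L)),
resp. Env H S; generateFrom_measurableCylinders, isPiSystem_measurableCylinders, generateFrom_prod_eq / IsPiSystem.prod,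
MeasurableSpace.induction_on_inter): the function w ↦ ind (patch w ∈ B) ind depends only on finitely many vertices of A and
finitely many directed edges inside A, all of them contained in Λ := A ∩ ball v r for large r, which is finite (finite_ball),
PC v (PC_Sd and PC_inter_ball) and does not contain nb v t (nb_notMem_Sd); so STRIP1 with φ = indicator of C gives
the equation. Finally ∫ G φ dμ = ∫ G(patch w) φ(lab w) dμ = ∫ G(x) φ(y) dν₂ = ∫ G dμ ∫ φ (lintegral_map, lintegral_prod_mul). -/
def STRIP2 [Fintype S] [Fintype L] (ε : ℝ) : Prop :=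
  ∀ μ : Measure (St H S L), X.IsStar ε μ → ∀ (v : H) (t : S)
    (G : St H S L → ℝ≥0∞), Measurable G → X.DepOn (X.Sd v t) G →
    ∀ φ : (unitInterval × unitInterval) × (unitInterval × unitInterval) → ℝ≥0∞, Measurable φ →
      ∫⁻ w, G w * φ (w.2 (v, t), w.2 (X.rev (v, t))) ∂μ = (∫⁻ w, G w ∂μ) * ∫⁻ x, φ x

/-- Packet OE-LOCB. theorem locb [Fintype L] : LOCB X. Finite locality of the functionals, without
any assumption of matchedness.
PROOF. Inductions along the recursions. nb v s ∈ ball v 1, and the ball of radius r about nb v s is contained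
in the ball of radius r + 1 about v (dist_comm, dist_nb_le). (1) Long: induction on r (ball v r). (2) Av m: the
induction step is the same; Av 0 looks at f v, at the edges (v,t) and at Long M at nb v t: ball v (M+1). (3) flipP with
fuel n looks at the first n+1 vertices: agreement on ball v (n+1) is enough (induction on n). (4) triP: for m+1 the
step as before; triP 0 at v uses armP, i.e. flipP with fuel dist (nb v t) z from nb v t. With dist (nb v t) z ≤ 1 + dist v z the
induction hypothesis (agreement on ball v r with 2 m + 3 + dist v z ≤ r) passes to nb v s and m - 1 (its distance from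
z is at most 1 + dist v z and its ball of radius r - 1 lies in ball v r). (5) TR: (f z).trans (triP ..) and f z = f' z. -/
def LOCB [Fintype L] : Prop :=
  ∀ (O O' : Edges H S) (f f' : Cfg H S L) (v : H) (r : ℕ), Agr X (X.ball v r) O O' f f' →
    ∀ (p : S) (y k : L),
      (X.Long O f r v p y ↔ X.Long O' f' r v p y) ∧
      (∀ m M : ℕ, m + M + 1 ≤ r → (X.Av O M f m v p y k ↔ X.Av O' M f' m v p y k)) ∧
      (∀ P : Par, 2 * P.J + P.M + 1 ≤ r → X.AS P O f v p y = X.AS P O' f' v p y) ∧
      (∀ (n : ℕ) (z : H), n + 1 ≤ r → X.flipP O f z n v p y = X.flipP O' f' z n v p y) ∧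
      (∀ (m : ℕ) (z : H), 2 * m + 3 + X.dist v z ≤ r →
        X.TR O m v p y k f z = X.TR O' m v p y k f' z)

/-- Packet OE-TROUT. theorem trout : TROUT X. Moves inside Λ do not change anything outside.
PROOF. flipP O f z n v p y = 1 if z ∉ Λ, v ∈ Λ and every open edge has both ends in Λ: induction on n
(z ≠ v; if O v t then nb v t ∈ Λ). The same for armP, triP (induction on m), and f z.trans 1 = f z. -/
def TROUT : Prop :=
  ∀ (O : Edges H S) (f : Cfg H S L) (Λ : Set H), (∀ v s, O v s → v ∈ Λ ∧ X.nb v s ∈ Λ) →
    ∀ v ∈ Λ, ∀ z, z ∉ Λ → ∀ (p : S) (y k : L),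
      (∀ n, X.flipP O f z n v p y = 1) ∧ X.flip O v p y f z = f z ∧
        ∀ m, X.TR O m v p y k f z = f z

end Pool.Agent.Helper78.OE
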