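import Pool.Agent.Helper78.OE.MkCtx

/-!
Project OE: the cost bound (5.5).
-/

open MeasureTheory Pool.Agent.Helper73.OE
open scoped ENNReal

namespace Pool.Agent.Helper78.OE

variable {H S L : Type} [Group H] (X : Sys H S L) [Fintype S] [Fintype L]

/-- The labels of a positive edge of the batch. -/
noncomputable def bS (ε ε' : ℝ)
    (c : (unitInterval × unitInterval) × (unitInterval × unitInterval)) : ℝ≥0∞ :=
  ind ((ClL ε c ∧ ¬ ClL ε' c) ∧ (c.1.2 : ℝ) < c.2.2)

theorem measurableSet_ClL (ε : ℝ) : MeasurableSet {c | ClL ε c} := by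
  have m1 : Measurable fun x : (unitInterval × unitInterval) × (unitInterval × unitInterval) =>
      (x.1.1 : ℝ) ^ 2 :=
    (measurable_subtype_coe.comp (measurable_fst.comp measurable_fst)).pow_const 2
  have m2 : Measurable fun x : (unitInterval × unitInterval) × (unitInterval × unitInterval) =>
      (x.2.1 : ℝ) ^ 2 :=
    (measurable_subtype_coe.comp (measurable_fst.comp measurable_snd)).pow_const 2
  exact (measurableSet_le m1 measurable_const).inter (measurableSet_le m2 measurable_const)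

theorem measurable_bS (ε ε' : ℝ) : Measurable (bS ε ε') := by
  apply measurable_ind
  refine ((measurableSet_ClL ε).inter (measurableSet_ClL ε').compl).inter ?_
  exact measurableSet_lt (measurable_subtype_coe.comp (measurable_snd.comp measurable_fst))
    (measurable_subtype_coe.comp (measurable_snd.comp measurable_snd))

theorem bS_closed {ε ε' : ℝ} (c : (unitInterval × unitInterval) × (unitInterval × unitInterval))
    (h : ¬ ClL ε c) : bS ε ε' c = 0 := ind_false fun h2 => h h2.1.1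

theorem bS_le_one (ε ε' : ℝ) (c : (unitInterval × unitInterval) × (unitInterval × unitInterval)) :
    bS ε ε' c ≤ 1 := ind_le_one _

theorem measurable_labels (v : H) (s : S) :
    Measurable fun w : St H S L => (w.2 (v, s), w.2 (X.rev (v, s))) :=
  ((measurable_pi_apply _).comp measurable_snd).prodMk
    ((measurable_pi_apply _).comp measurable_snd)

/-- The expected value of the indicator of a positive edge of the batch. -/
theorem int_bS {ε ε' : ℝ} {μ : Measure (St H S L)} (C : Ctx X ε μ) (h0 : 0 ≤ ε') (h : ε' ≤ ε)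
    (hS : STRIP2 X ε) (hLab : LAB) (v : H) (s : S) :
    ∫⁻ w, bS ε ε' (w.2 (v, s), w.2 (X.rev (v, s))) ∂μ ≤ ENNReal.ofReal (ε - ε') := by
  have hφ : Measurable fun x : (unitInterval × unitInterval) × (unitInterval × unitInterval) =>
      ind (((x.1.1 : ℝ) ^ 2 ≤ ε ∧ (x.2.1 : ℝ) ^ 2 ≤ ε) ∧
        ¬ ((x.1.1 : ℝ) ^ 2 ≤ ε' ∧ (x.2.1 : ℝ) ^ 2 ≤ ε')) :=
    measurable_ind ((measurableSet_ClL ε).inter (measurableSet_ClL ε').compl)
  have h2 := hS μ C.star v s (fun _ => 1) measurable_const (fun _ _ _ _ => rfl) _ hφ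
  rw [(hLab ε ε' h0 h C.le_one).2, lintegral_const, C.prob, one_mul, one_mul] at h2
  rw [← h2]
  apply lintegral_mono
  intro w
  show bS ε ε' _ ≤ 1 * _
  rw [one_mul]
  exact ind_mono fun h => h.1

open Classical in
/-- Decomposition of the indicator of a positive edge according to the labels. -/
theorem sum_Gxy (b : (unitInterval × unitInterval) × (unitInterval × unitInterval) → ℝ≥0∞)
    (v : H) (s : S) (w : St H S L) :
    ∑ x : L, ∑ y : L, Gxy X b v s x y w = b (w.2 (v, s), w.2 (X.rev (v, s))) := by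
  unfold Gxy
  rw [Finset.sum_eq_single (w.1 v s)]
  · rw [Finset.sum_eq_single (X.tau (w.1 (X.nb v s) (X.bar s)))]
    · rw [ind_true rfl, ind_true rfl, mul_one, mul_one]
    · intro y _ hy
      rw [ind_false (Ne.symm hy), mul_zero, mul_zero]
    · intro h; exact absurd (Finset.mem_univ _) h
  · intro x _ hx
    refine Finset.sum_eq_zero fun y _ => ?_
    rw [ind_false (Ne.symm hx), zero_mul, mul_zero]
  · intro h; exact absurd (Finset.mem_univ _) h

theorem measurable_Gxy {b : (unitInterval × unitInterval) × (unitInterval × unitInterval) → ℝ≥0∞}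
    (hb : Measurable b) (v : H) (s : S) (x y : L) : Measurable (Gxy X b v s x y) := by
  have h1 : MeasurableSet {w : St H S L | w.1 v s = x} := by
    have hm : Measurable fun w : St H S L => w.1 v := (measurable_pi_apply v).comp measurable_fst
    have h2 : MeasurableSet {f : S ≃ L | f s = x} := Set.Finite.measurableSet (Set.toFinite _)
    exact hm h2
  have h2 : MeasurableSet {w : St H S L | X.tau (w.1 (X.nb v s) (X.bar s)) = y} := by
    have hm : Measurable fun w : St H S L => w.1 (X.nb v s) :=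
      (measurable_pi_apply _).comp measurable_fst
    have h2 : MeasurableSet {f : S ≃ L | X.tau (f (X.bar s)) = y} :=
      Set.Finite.measurableSet (Set.toFinite _)
    exact hm h2
  exact (hb.comp (measurable_labels X v s)).mul ((measurable_ind h1).mul (measurable_ind h2))

theorem sum_Gxy_int {ε ε' : ℝ} {μ : Measure (St H S L)} (C : Ctx X ε μ) (h0 : 0 ≤ ε') (h : ε' ≤ ε)
    (hS : STRIP2 X ε) (hLab : LAB) (v : H) (s : S) :
    ∑ x : L, ∑ y : L, ∫⁻ w, Gxy X (bS ε ε') v s x y w ∂μ ≤ ENNReal.ofReal (ε - ε') := by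
  have h1 : ∀ x : L, ∑ y : L, ∫⁻ w, Gxy X (bS ε ε') v s x y w ∂μ =
      ∫⁻ w, ∑ y : L, Gxy X (bS ε ε') v s x y w ∂μ := fun x =>
    (lintegral_finset_sum _ (fun y _ => measurable_Gxy X (measurable_bS ε ε') v s x y)).symm
  rw [Finset.sum_congr rfl fun x _ => h1 x, ← lintegral_finset_sum _ (fun x _ =>
    Finset.measurable_sum _ fun y _ => measurable_Gxy X (measurable_bS ε ε') v s x y)]
  refine le_trans (le_of_eq (lintegral_congr fun w => ?_)) (int_bS X C h0 h hS hLab v s)
  exact sum_Gxy X (bS ε ε') v s w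

/-- The product of Gxy and the probability of a fallback is a test function on the other side. -/
theorem test_Gfb {ε : ℝ} {b : (unitInterval × unitInterval) × (unitInterval × unitInterval) → ℝ≥0∞}
    (hb : Measurable b) (hb0 : ∀ c, ¬ ClL ε c → b c = 0) (hb1 : ∀ c, b c ≤ 1) (hG : MGA X ε)
    (P : Par) (hP : 1 ≤ P.cap) (v : H) (s : S) {x y : L} (hxy : x ≠ y) :
    Test X (X.nb v s) (X.bar s) (X.tau x) (fun w => Gxy X b v s x y w * fb X P ε v s y w) where
  meas := (measurable_Gxy X hb v s x y).mul (hG P v s y).1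
  dep := (hG P v s y).2 b hb0 x hxy
  van := by
    intro w hw
    show Gxy X b v s x y w * _ = 0
    have : Gxy X b v s x y w = 0 := by
      unfold Gxy
      rw [hw, X.tau_tau, ind_false hxy, mul_zero, mul_zero]
    rw [this, zero_mul]
  le_one := by
    intro w
    refine mul_le_one' (mul_le_one' (hb1 _) (mul_le_one' (ind_le_one _) (ind_le_one _))) ?_
    unfold fb
    have hc : ((P.cap : ℕ) : ℝ≥0∞) ≠ 0 := by
      have : P.cap ≠ 0 := by omega
      exact_mod_cast this
    rw [ENNReal.div_le_iff hc (by simp), one_mul]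
    exact_mod_cast Nat.sub_le _ _

/-- The geometric series. -/
theorem tsum_sg {ε : ℝ} (h0 : 0 < ε) (h1 : ε ≤ 1) :
    ∑' r : ℕ, sg ε ^ r = ENNReal.ofReal (1 / ε) := by
  rw [ENNReal.tsum_geometric]
  have : (1 : ℝ≥0∞) - sg ε = ENNReal.ofReal ε := by
    unfold sg
    rw [← ENNReal.ofReal_one, ← ENNReal.ofReal_sub _ (by linarith)]
    congr 1
    ring
  rw [this, one_div, ENNReal.ofReal_inv_of_pos h0]

/-- The contribution of the labels `x`, `y`. -/
theorem cost_xy {ε ε' : ℝ} {μ : Measure (St H S L)} (C : Ctx X ε μ) (hε : 0 < ε)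
    (hl : 3 ≤ Fintype.card L) (hLo : LONG X ε μ) (hH : HH X ε μ) (hG : MGA X ε) (P : Par)
    (hM : 1 ≤ P.M) (hP : 1 ≤ P.cap) {η : ℝ} (hη : EtaOK (Fintype.card L) P ε η) (v : H) (s : S)
    {x y : L} (hxy : x ≠ y) :
    ∫⁻ w, Gxy X (bS ε ε') v s x y w * (((2 * P.J + 2 * P.M : ℕ) : ℝ≥0∞) + fb X P ε v s y w *
      ∑' r : ℕ, ind (X.Long (Om X ε w) w.1 r (X.nb v s) (X.bar s) (X.tau x))) ∂μ ≤
    (((2 * P.J + 2 * P.M : ℕ) : ℝ≥0∞) + ENNReal.ofReal (1 / ε) * ENNReal.ofReal η) *
      ∫⁻ w, Gxy X (bS ε ε') v s x y w ∂μ := by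
  have hT := test_Gfb X (measurable_bS ε ε') bS_closed (bS_le_one ε ε') hG P hP v s hxy
  have hGm := measurable_Gxy X (measurable_bS ε ε') v s x y
  have e1 : ∀ w : St H S L, Gxy X (bS ε ε') v s x y w * (((2 * P.J + 2 * P.M : ℕ) : ℝ≥0∞) +
      fb X P ε v s y w *
        ∑' r : ℕ, ind (X.Long (Om X ε w) w.1 r (X.nb v s) (X.bar s) (X.tau x))) =
      ((2 * P.J + 2 * P.M : ℕ) : ℝ≥0∞) * Gxy X (bS ε ε') v s x y w +
      ∑' r : ℕ, (Gxy X (bS ε ε') v s x y w * fb X P ε v s y w) *
        ind (X.Long (Om X ε w) w.1 r (X.nb v s) (X.bar s) (X.tau x)) := by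
    intro w
    rw [mul_add, ENNReal.tsum_mul_left, mul_comm (Gxy X (bS ε ε') v s x y w), mul_assoc]
  have e3 : ∀ r : ℕ, AEMeasurable (fun w : St H S L =>
      (Gxy X (bS ε ε') v s x y w * fb X P ε v s y w) *
        ind (X.Long (Om X ε w) w.1 r (X.nb v s) (X.bar s) (X.tau x))) μ := fun r =>
    (hT.meas.mul (meas_long X C.meas C.locb ε r _ _ _)).aemeasurable
  rw [lintegral_congr e1, lintegral_add_left (hGm.const_mul _), lintegral_const_mul _ hGm,
    lintegral_tsum e3, add_mul]
  refine add_le_add le_rfl ?_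
  have e2 : ∀ r : ℕ, ∫⁻ w, (Gxy X (bS ε ε') v s x y w * fb X P ε v s y w) *
      ind (X.Long (Om X ε w) w.1 r (X.nb v s) (X.bar s) (X.tau x)) ∂μ =
      sg ε ^ r * ∫⁻ w, Gxy X (bS ε ε') v s x y w * fb X P ε v s y w ∂μ := fun r =>
    hLo r _ _ _ _ hT
  rw [tsum_congr e2, ENNReal.tsum_mul_right, tsum_sg hε C.le_one, mul_assoc]
  exact mul_le_mul_right (hH hl _ (measurable_bS ε ε') bS_closed (bS_le_one ε ε') P η hM hP hη
    v s x y hxy) _

end Pool.Agent.Helper78.OE
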