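import Pool.Agent.Helper78.OE.CostC

/-!
Project OE: the cost bound (5.5), second part.
-/

open MeasureTheory Pool.Agent.Helper73.OE
open scoped ENNReal

namespace Pool.Agent.Helper78.OE

variable {H S L : Type} [Group H] (X : Sys H S L) [Fintype S] [Fintype L]

theorem measure_eq_ind {α : Type*} [MeasurableSpace α] (μ : Measure α) {p : α → Prop}
    (h : MeasurableSet {a | p a}) : μ {a | p a} = ∫⁻ a, ind (p a) ∂μ := by
  classical
  have : (fun a => ind (p a)) = Set.indicator {a | p a} (fun _ => 1) := by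
    funext a
    by_cases hp : p a
    · rw [ind_true hp, Set.indicator_of_mem (show a ∈ {a | p a} from hp)]
    · rw [ind_false hp, Set.indicator_of_notMem (show a ∉ {a | p a} from hp)]
  rw [this, lintegral_indicator h, lintegral_const, one_mul, Measure.restrict_apply_univ]

/-- The number of the vertices changed by the static update for the seed `k`, bounded. -/
noncomputable def bd (P : Par) (ε ε' : ℝ) (v : H) (s : S) (w : St H S L) (k : ℕ) : ℝ≥0∞ :=
  bS ε ε' (w.2 (v, s), w.2 (X.rev (v, s))) *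
    (ind (w.1 v s ≠ X.tau (w.1 (X.nb v s) (X.bar s))) * (((2 * P.J + 2 * P.M : ℕ) : ℝ≥0∞) +
      ind (¬ ∃ i, X.Cheap P (Om X ε w) v s k w.1 i) *
        ∑' r : ℕ, ind (X.Long (Om X ε w) w.1 r (X.nb v s) (X.bar s) (X.tau (w.1 v s)))))

theorem tsum_chst (hU : CHU X) (P : Par) (ε ε' : ℝ) (v : H) (s : S) (w : St H S L)
    (hw : ∀ v s, (X.Op ε w.2 v s ↔ Om X ε w v s)) (u : Seeds H S) :
    ∑' z : H, ind (X.ChSt P ε ε' w.1 w.2 u v s z) ≤ bd X P ε ε' v s w (Sys.sd P u (v, s)) := by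
  have hOO : X.Op ε w.2 = Om X ε w := by
    funext v s
    exact propext (hw v s)
  have h1 : ∀ z : H, ind (X.ChSt P ε ε' w.1 w.2 u v s z) =
      bS ε ε' (w.2 (v, s), w.2 (X.rev (v, s))) *
        ind (X.Upd P (Om X ε w) v s (Sys.sd P u (v, s)) w.1 z ≠ w.1 z) := by
    intro z
    unfold bS
    rw [← ind_and]
    apply ind_congr
    unfold Sys.ChSt
    rw [hOO]
    exact (and_assoc).symm
  rw [tsum_congr h1, ENNReal.tsum_mul_left]
  unfold bd
  exact mul_le_mul_right (hU P (Om X ε w) v s _ w.1) _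

theorem sum_bd (hF : FBC X) (P : Par) (hP : 1 ≤ P.cap) (ε ε' : ℝ) (v : H) (s : S)
    (w : St H S L) :
    (∑ k ∈ Finset.range P.cap, bd X P ε ε' v s w k) / P.cap =
      bS ε ε' (w.2 (v, s), w.2 (X.rev (v, s))) *
      (ind (w.1 v s ≠ X.tau (w.1 (X.nb v s) (X.bar s))) * (((2 * P.J + 2 * P.M : ℕ) : ℝ≥0∞) +
        fb X P ε v s (X.tau (w.1 (X.nb v s) (X.bar s))) w *
        ∑' r : ℕ, ind (X.Long (Om X ε w) w.1 r (X.nb v s) (X.bar s) (X.tau (w.1 v s))))) := by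
  unfold bd
  rw [← Finset.mul_sum, ← Finset.mul_sum, Finset.sum_add_distrib, ← Finset.sum_mul,
    hF P (Om X ε w) v s w.1, Finset.sum_const, Finset.card_range, nsmul_eq_mul]
  have hc : ((P.cap : ℕ) : ℝ≥0∞) ≠ 0 := by
    have : P.cap ≠ 0 := by omega
    exact_mod_cast this
  have hc2 : ((P.cap : ℕ) : ℝ≥0∞) ≠ ∞ := by simp
  unfold fb
  rw [div_eq_mul_inv, mul_assoc, mul_assoc, add_mul]
  congr 2
  congr 1
  · rw [mul_comm, ← mul_assoc, ENNReal.inv_mul_cancel hc hc2, one_mul]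
  · rw [div_eq_mul_inv, mul_assoc, mul_assoc, mul_comm (∑' r : ℕ, _)]

open Classical in
/-- The bound of the integral over the seeds. -/
noncomputable def Rb (P : Par) (ε ε' : ℝ) (v : H) (s : S) (w : St H S L) : ℝ≥0∞ :=
  ∑ x : L, ∑ y : L, if x = y then 0 else
    Gxy X (bS ε ε') v s x y w * (((2 * P.J + 2 * P.M : ℕ) : ℝ≥0∞) + fb X P ε v s y w *
      ∑' r : ℕ, ind (X.Long (Om X ε w) w.1 r (X.nb v s) (X.bar s) (X.tau x)))

theorem seeds_le (hU : CHU X) (hF : FBC X) (hSe : SEED H S) (P : Par) (hP : 1 ≤ P.cap)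
    (ε ε' : ℝ) (v : H) (s : S) (w : St H S L) (hw : ∀ v s, (X.Op ε w.2 v s ↔ Om X ε w v s)) :
    ∫⁻ u, ∑' z : H, ind (X.ChSt P ε ε' w.1 w.2 u v s z) ∂(Sys.lamS H S) ≤ Rb X P ε ε' v s w := by
  classical
  refine le_trans (lintegral_mono fun u => tsum_chst X hU P ε ε' v s w hw u) ?_
  rw [hSe P hP (v, s) (bd X P ε ε' v s w), sum_bd X hF P hP]
  by_cases hxy : w.1 v s = X.tau (w.1 (X.nb v s) (X.bar s))
  · rw [ind_false (not_not.2 hxy), zero_mul, mul_zero]
    exact zero_le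
  · rw [ind_true hxy, one_mul]
    unfold Rb
    refine le_trans ?_ (Finset.single_le_sum (f := fun x : L => ∑ y : L, if x = y then 0 else
      Gxy X (bS ε ε') v s x y w * (((2 * P.J + 2 * P.M : ℕ) : ℝ≥0∞) + fb X P ε v s y w *
        ∑' r : ℕ, ind (X.Long (Om X ε w) w.1 r (X.nb v s) (X.bar s) (X.tau x))))
      (fun _ _ => zero_le) (Finset.mem_univ (w.1 v s)))
    refine le_trans ?_ (Finset.single_le_sum (f := fun y : L => if w.1 v s = y then 0 else
      Gxy X (bS ε ε') v s (w.1 v s) y w * (((2 * P.J + 2 * P.M : ℕ) : ℝ≥0∞) + fb X P ε v s y w *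
        ∑' r : ℕ, ind (X.Long (Om X ε w) w.1 r (X.nb v s) (X.bar s) (X.tau (w.1 v s)))))
      (fun _ _ => zero_le) (Finset.mem_univ (X.tau (w.1 (X.nb v s) (X.bar s)))))
    rw [if_neg hxy]
    have : Gxy X (bS ε ε') v s (w.1 v s) (X.tau (w.1 (X.nb v s) (X.bar s))) w =
        bS ε ε' (w.2 (v, s), w.2 (X.rev (v, s))) := by
      unfold Gxy
      rw [ind_true rfl, ind_true rfl, mul_one, mul_one]
    rw [this]

theorem measurable_big (hM : MEAS X) (hL : LOCB X) {ε : ℝ} (ε' : ℝ) (hG : MGA X ε) (P : Par)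
    (v : H) (s : S) (x y : L) : Measurable fun w : St H S L =>
      Gxy X (bS ε ε') v s x y w * (((2 * P.J + 2 * P.M : ℕ) : ℝ≥0∞) + fb X P ε v s y w *
        ∑' r : ℕ, ind (X.Long (Om X ε w) w.1 r (X.nb v s) (X.bar s) (X.tau x))) :=
  (measurable_Gxy X (measurable_bS ε ε') v s x y).mul (measurable_const.add
    ((hG P v s y).1.mul (Measurable.ennreal_tsum fun r => meas_long X hM hL ε r _ _ _)))

theorem int_Rb {ε ε' : ℝ} {μ : Measure (St H S L)} (C : Ctx X ε μ) (hε : 0 < ε) (h0 : 0 ≤ ε')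
    (h : ε' ≤ ε) (hl : 3 ≤ Fintype.card L) (hS : STRIP2 X ε) (hLab : LAB) (hLo : LONG X ε μ)
    (hH : HH X ε μ) (hG : MGA X ε) (P : Par) (hM : 1 ≤ P.M) (hP : 1 ≤ P.cap) {η : ℝ}
    (hη : EtaOK (Fintype.card L) P ε η) (v : H) (s : S) :
    ∫⁻ w, Rb X P ε ε' v s w ∂μ ≤
      (((2 * P.J + 2 * P.M : ℕ) : ℝ≥0∞) + ENNReal.ofReal (1 / ε) * ENNReal.ofReal η) *
        ENNReal.ofReal (ε - ε') := by
  classical
  have hm := fun x y => measurable_big X C.meas C.locb ε' hG P v s x y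
  have hm2 : ∀ x y : L, Measurable fun w : St H S L => (if x = y then (0 : ℝ≥0∞) else
      Gxy X (bS ε ε') v s x y w * (((2 * P.J + 2 * P.M : ℕ) : ℝ≥0∞) + fb X P ε v s y w *
        ∑' r : ℕ, ind (X.Long (Om X ε w) w.1 r (X.nb v s) (X.bar s) (X.tau x)))) := by
    intro x y
    by_cases hxy : x = y
    · simp only [hxy, if_true]
      exact measurable_const
    · simp only [hxy, if_false]
      exact hm x y
  unfold Rb
  rw [lintegral_finset_sum _ (fun x _ => Finset.measurable_sum _ fun y _ => hm2 x y)]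
  have h1 : ∀ x : L, ∫⁻ w, ∑ y : L, (if x = y then (0 : ℝ≥0∞) else
      Gxy X (bS ε ε') v s x y w * (((2 * P.J + 2 * P.M : ℕ) : ℝ≥0∞) + fb X P ε v s y w *
        ∑' r : ℕ, ind (X.Long (Om X ε w) w.1 r (X.nb v s) (X.bar s) (X.tau x)))) ∂μ ≤
      ∑ y : L, (((2 * P.J + 2 * P.M : ℕ) : ℝ≥0∞) + ENNReal.ofReal (1 / ε) * ENNReal.ofReal η) *
        ∫⁻ w, Gxy X (bS ε ε') v s x y w ∂μ := by
    intro x
    rw [lintegral_finset_sum _ (fun y _ => hm2 x y)]
    refine Finset.sum_le_sum fun y _ => ?_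
    by_cases hxy : x = y
    · simp only [hxy, if_true, lintegral_zero]
      exact zero_le
    · simp only [hxy, if_false]
      exact cost_xy X C hε hl hLo hH hG P hM hP hη v s hxy
  refine le_trans (Finset.sum_le_sum fun x _ => h1 x) ?_
  simp only [← Finset.mul_sum]
  exact mul_le_mul_right (sum_Gxy_int X C h0 h hS hLab v s) _

/-- The cost bound (5.5). -/
theorem cost_le [Countable H] {ε ε' : ℝ} {μ : Measure (St H S L)} (C : Ctx X ε μ) (hε : 0 < ε)
    (h0 : 0 ≤ ε') (h : ε' ≤ ε) (hl : 3 ≤ Fintype.card L) (hS : STRIP2 X ε) (hLab : LAB)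
    (hLo : LONG X ε μ) (hH : HH X ε μ) (hG : MGA X ε) (hU : CHU X) (hF : FBC X) (hSe : SEED H S)
    (hMe : CHM X) (P : Par) (hM : 1 ≤ P.M) (hP : 1 ≤ P.cap) {η : ℝ} (hη0 : 0 ≤ η)
    (hη : EtaOK (Fintype.card L) P ε η) (s : S) :
    X.cost P ε ε' μ s ≤
      ENNReal.ofReal ((ε - ε') * (2 * (P.J : ℝ) + 2 * (P.M : ℝ) + η / ε)) := by
  have hs : IsProbabilityMeasure (Sys.lamS H S) := by
    unfold Sys.lamS; infer_instance
  have hμ : IsProbabilityMeasure μ := ⟨C.prob⟩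
  unfold Sys.cost
  have e1 : ∀ z : H, (μ.prod (Sys.lamS H S)) {w | X.ChSt P ε ε' w.1.1 w.1.2 w.2 1 s z} =
      ∫⁻ w, ind (X.ChSt P ε ε' w.1.1 w.1.2 w.2 1 s z) ∂(μ.prod (Sys.lamS H S)) := fun z =>
    measure_eq_ind _ (hMe P ε ε' 1 s z)
  have e2 : ∀ z : H, Measurable fun w : St H S L × Seeds H S =>
      ind (X.ChSt P ε ε' w.1.1 w.1.2 w.2 1 s z) := fun z => measurable_ind (hMe P ε ε' 1 s z)
  rw [tsum_congr e1, ← lintegral_tsum (fun z => (e2 z).aemeasurable),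
    lintegral_prod _ (Measurable.ennreal_tsum e2).aemeasurable]
  refine le_trans (lintegral_mono_ae (g := Rb X P ε ε' 1 s) ?_) ?_
  · filter_upwards [C.om] with w hw
    exact seeds_le X hU hF hSe P hP ε ε' 1 s w hw
  · refine le_trans (int_Rb X C hε h0 h hl hS hLab hLo hH hG P hM hP hη 1 s) (le_of_eq ?_)
    have h1 : (((2 * P.J + 2 * P.M : ℕ) : ℝ≥0∞)) =
        ENNReal.ofReal (2 * (P.J : ℝ) + 2 * (P.M : ℝ)) := by
      rw [← ENNReal.ofReal_natCast]
      push_cast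
      rfl
    have h2 : 0 ≤ 1 / ε := by positivity
    rw [h1, ← ENNReal.ofReal_mul h2, ← ENNReal.ofReal_add (by positivity) (by positivity),
      ← ENNReal.ofReal_mul (by positivity)]
    congr 1
    ring

end Pool.Agent.Helper78.OE
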