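import Pool.Agent.Helper78.OE.CostD

/-!
Project OE: the cost statement of the interface from the packets of block C.
-/

open MeasureTheory Pool.Agent.Helper73.OE
open scoped ENNReal

namespace Pool.Agent.Helper78.OE

/-- All packets of block C together give the cost bound of the interface. -/
theorem cost_stmt_of
    (hNum : ∀ n : ℕ, 3 ≤ n → NUM n)
    (hLab : LAB)
    (hMeas : ∀ {H S L : Type} [Group H] [Fintype S] [Fintype L] (X : Sys H S L), MEAS X)
    (hLocb : ∀ {H S L : Type} [Group H] [Fintype S] [Fintype L] (X : Sys H S L), LOCB X)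
    (hStrip : ∀ {H S L : Type} [Group H] [Countable H] [Fintype S] [Fintype L] (X : Sys H S L)
      (ε : ℝ), STRIP2 X ε)
    (hLong : ∀ {H S L : Type} [Group H] [Countable H] [Fintype S] [Fintype L] (X : Sys H S L)
      {ε : ℝ} {μ : Measure (St H S L)}, Ctx X ε μ → LONG X ε μ)
    (hHH : ∀ {H S L : Type} [Group H] [Countable H] [Fintype S] [Fintype L] (X : Sys H S L)
      {ε : ℝ} {μ : Measure (St H S L)}, Ctx X ε μ → HH X ε μ)
    (hMga : ∀ {H S L : Type} [Group H] [Countable H] [Fintype S] [Fintype L] (X : Sys H S L)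
      {ε : ℝ} {μ : Measure (St H S L)}, Ctx X ε μ → MGA X ε)
    (hChu : ∀ {H S L : Type} [Group H] [Fintype S] [Fintype L] (X : Sys H S L), CHU X)
    (hFbc : ∀ {H S L : Type} [Group H] [Fintype S] [Fintype L] (X : Sys H S L), FBC X)
    (hChm : ∀ {H S L : Type} [Group H] [Countable H] [Fintype S] [Fintype L] (X : Sys H S L),
      CHM X)
    (hSeed : ∀ H S : Type, SEED H S) : Cost_stmt := by
  intro H S L _ _ _ _ X hl
  obtain ⟨C, hC0, hC⟩ := hNum (Fintype.card L) hl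
  refine ⟨C, hC0, fun l => ⟨2 ^ (9 * l), 2 ^ (9 * l), fun ε h1 h2 => ?_⟩⟩
  have e1 : ((1 : ℝ) / 4096) ^ (l + 1) = (1 / 2 : ℝ) ^ (12 * (l + 1)) := by
    rw [pow_mul]; norm_num
  have e2 : ((1 : ℝ) / 4096) ^ l = (1 / 2 : ℝ) ^ (12 * l) := by
    rw [pow_mul]; norm_num
  rw [e1] at h1
  rw [e2] at h2
  obtain ⟨c, η, hc, hη0, hη, hb⟩ := hC l ε h1 h2
  refine ⟨c, hc, fun ε' h0' h' μ hμ s => ?_⟩
  have hε : 0 < ε := lt_trans h0' h'
  have hε1 : ε ≤ 1 := le_trans h2 (pow_le_one₀ (by norm_num) (by norm_num))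
  have Cx : Ctx X ε μ := mkCtx X hμ hε.le hε1 (hStrip X ε) hLab (hMeas X) (hLocb X)
  have hM : 1 ≤ (2 : ℕ) ^ (9 * l) := Nat.one_le_two_pow
  have key := cost_le X Cx hε h0'.le h'.le hl (hStrip X ε) hLab (hLong X Cx) (hHH X Cx)
    (hMga X Cx) (hChu X) (hFbc X) (hSeed H S) (hChm X) (ParL l c) hM hc hη0 hη s
  refine le_trans key (ENNReal.ofReal_le_ofReal ?_)
  have e3 : (2048 : ℝ) ^ l = 2 ^ (11 * l) := by
    rw [pow_mul]; norm_num
  have e4 : (((ParL l c).J : ℕ) : ℝ) = (2 : ℝ) ^ (9 * l) := by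
    unfold ParL; push_cast; rfl
  have e5 : (((ParL l c).M : ℕ) : ℝ) = (2 : ℝ) ^ (9 * l) := by
    unfold ParL; push_cast; rfl
  rw [e3, e4, e5]
  have h3 : 0 ≤ ε - ε' := by linarith
  calc (ε - ε') * (2 * (2 : ℝ) ^ (9 * l) + 2 * (2 : ℝ) ^ (9 * l) + η / ε)
      ≤ (ε - ε') * (C * 2 ^ (11 * l)) := mul_le_mul_of_nonneg_left hb h3
    _ = C * (ε - ε') * 2 ^ (11 * l) := by ring

/-- Independence in the form of the interface. -/
theorem ind_stmt_of
    (hStrip : ∀ {H S L : Type} [Group H] [Countable H] [Fintype S] [Fintype L] (X : Sys H S L)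
      (ε : ℝ), STRIP2 X ε) : Ind_stmt := by
  intro H S L _ _ _ _ X ε μ hμ v t G hG hd φ hφ
  exact hStrip X ε μ hμ v t G hG hd φ hφ

/-- Open edges are almost surely matched. -/
theorem matched_stmt : Matched_stmt := by
  intro H S L _ _ _ _ X ε μ hμ
  filter_upwards [star_matched X hμ] with w hw
  intro v s _ _ ho
  exact ((hw v s).1 ho).2

end Pool.Agent.Helper78.OE
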