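import Pool.Agent.Helper78.OE.BlockC
import Pool.Agent.Helper35.OE.HH

/-!
Project OE, block C: the cost statement, without hypotheses.
-/

open MeasureTheory Pool.Agent.Helper73.OE

namespace Pool.Agent.Helper78.OE

theorem cost_stmt : Cost_stmt := by
  refine @cost_stmt_of2 ?_
  intro H S L _ _ _ _ X ε μ C h1 h2 h3 h4 h5
  exact Pool.Agent.Helper35.OE.hh X C h1 h2 h3 h4 h5

end Pool.Agent.Helper78.OE
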