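import Pool.Agent.Helper78.OE.Test

/-!
Project OE (MP_fc0446_an): moments of the number of the available tripods (4.2, 5.1, 5.2).
All packets may use Test.lean (calculus of test functions) and the structure `Ctx X ε μ`.
The pattern of all proofs: decompose according to `w.1 v = σ` (le_of_split, eq_of_split), then all the
directions at `v` are fixed, strip the branches one after the other (`Ctx.strip`, `test_next`).
-/

open MeasureTheory Pool.Agent.Helper73.OE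
open scoped ENNReal

namespace Pool.Agent.Helper78.OE

variable {H S L : Type} [Group H] (X : Sys H S L) [Fintype S] [Fintype L]

/-- Packet OE-SHIFT. theorem shift {ε μ} (C : Ctx X ε μ) : SHIFT X ε μ. One step along a run.
PROOF. First version (≤). All integrands are measurable: on {w.1 v = σ} the integrand is
G ind(w.1 v = σ) ind (Om X ε w v t) Ψ (nb v t) (bar t) (tau (σ p)) w with the constant direction t = σ.symm y (use
le_of_split or prove the decomposition directly with lintegral_split; measurability of the whole integrand: it is the sum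
over σ of these functions). Fix σ. If σ p = y both sides vanish (Test.van, the indicator). If σ p ≠ y then t ≠ p. Let K w = G w *
ind (w.1 v = σ): test function (Test.mul_eq), depends on Past v p ⊆ Sd v t (Past_subset, t ≠ p), and vanishes if w.1 v t = κ := σ p
(on the event w.1 v t = σ t = y ≠ σ p). So G' w = K w * ind (Om X ε w v t) is a test function at (nb v t, bar t, tau (σ p))
by test_next, and the hypothesis for Ψ gives ∫ G' Ψ ≤ c ∫ G' = c sg ε ∫ K by C.strip. Sum over σ. The version with = is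
the same. -/
def SHIFT (ε : ℝ) (μ : Measure (St H S L)) : Prop :=
  ∀ (Ψ : H → S → L → St H S L → ℝ≥0∞) (c : ℝ≥0∞), (∀ v p y, Measurable (Ψ v p y)) →
    ((∀ v p y G, Test X v p y G → ∫⁻ w, G w * Ψ v p y w ∂μ ≤ c * ∫⁻ w, G w ∂μ) →
      ∀ v p y G, Test X v p y G →
        ∫⁻ w, G w * (ind (Om X ε w v ((w.1 v).symm y)) *
          Ψ (X.nb v ((w.1 v).symm y)) (X.bar ((w.1 v).symm y)) (X.tau (w.1 v p)) w) ∂μ ≤
          sg ε * c * ∫⁻ w, G w ∂μ) ∧
    ((∀ v p y G, Test X v p y G → ∫⁻ w, G w * Ψ v p y w ∂μ = c * ∫⁻ w, G w ∂μ) →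
      ∀ v p y G, Test X v p y G →
        ∫⁻ w, G w * (ind (Om X ε w v ((w.1 v).symm y)) *
          Ψ (X.nb v ((w.1 v).symm y)) (X.bar ((w.1 v).symm y)) (X.tau (w.1 v p)) w) ∂μ =
          sg ε * c * ∫⁻ w, G w ∂μ)

/-- Packet OE-LONG (4.2). theorem long {ε μ} (C : Ctx X ε μ) (h : SHIFT X ε μ) : LONG X ε μ.
PROOF. Induction on r with Ψ v p y w = ind (X.Long (Om X ε w) w.1 r v p y), c = sg ε ^ r; r = 0: Long = True, ind = 1.
Step: Long (r+1) v p y = O v t ∧ Long r (nb v t) (bar t) (tau (f v p)), t = (f v).symm y (definition), ind_and, SHIFT (=).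
Measurability: meas_long. -/
def LONG (ε : ℝ) (μ : Measure (St H S L)) : Prop :=
  ∀ (r : ℕ) (v : H) (p : S) (y : L) (G : St H S L → ℝ≥0∞), Test X v p y G →
    ∫⁻ w, G w * ind (X.Long (Om X ε w) w.1 r v p y) ∂μ = sg ε ^ r * ∫⁻ w, G w ∂μ

/-- Packet OE-ARM. theorem arm {ε μ} (C : Ctx X ε μ) (h : LONG X ε μ) : ARM X ε μ. Law of the length of an arm.
PROOF. ¬ ArmOk = (Om w v t ∧ Long M (nb v t) (bar t) (tau κ)). K w * ind (Om X ε w v t) is a test function at (nb v t, bar t, tau κ)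
(test_next), so ∫ K ind(Om) ind(Long M ..) = sg^M ∫ K ind(Om) = sg^M sg ∫ K (LONG, C.strip) = sg^(M+1) ∫ K. As K = K ind(ArmOk) +
K ind(¬ ArmOk) (ind_add_not) and ∫ K ≤ μ univ = 1 < ∞: ∫ K ind(ArmOk) = ∫ K - sg^(M+1) ∫ K = (1 - sg^(M+1)) ∫ K
(ENNReal.eq_sub_of_add_eq, ENNReal.sub_mul, sg ε ≤ 1 as 0 ≤ ε). -/
def ARM (ε : ℝ) (μ : Measure (St H S L)) : Prop :=
  ∀ (M : ℕ) (v : H) (t : S) (κ : L) (K : St H S L → ℝ≥0∞), Measurable K → X.DepOn (X.Sd v t) K →
    (∀ w, K w ≤ 1) → (∀ w, w.1 v t = κ → K w = 0) →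
    ∫⁻ w, K w * ind (X.ArmOk (Om X ε w) M w.1 v t κ) ∂μ = pE M ε * ∫⁻ w, K w ∂μ

/-- The number of the side labels which are available at the position `m` of the run. -/
noncomputable def NA (M : ℕ) (ε : ℝ) (m : ℕ) (v : H) (p : S) (y : L) (w : St H S L) : ℝ≥0∞ :=
  ∑ k : L, ind (X.Av (Om X ε w) M w.1 m v p y k)

/-- Packet OE-AV0 (5.1). theorem av0 {ε μ} (C : Ctx X ε μ) (hS : SHIFT X ε μ) (h : ARM X ε μ) : AV0 X ε μ. First moment.
PROOF. m = 0: eq_of_split at v; fix σ, if σ p = y both sides are 0; t = σ.symm y ≠ p. ∫ of a finite sum (lintegral_finset_sum).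
For k = σ p or k = y the indicator is 0 (Av 0 contains k ≠ f v p, k ≠ y). For the other card L - 2 labels k: r = σ.symm k is
different from p and t. K₀ w = G w * ind (w.1 v = σ) depends on Past v p, contained in Sd v t and Sd v r. K₁ = K₀ ind(ArmOk M v t k):
depends on Sd v r (dep_arm with A = Sd v r: Past v t ⊆ Sd v r by Past_subset, r ≠ t; K₀ = 0 if w.1 v t = k because w.1 v t = y ≠ k).
ARM for (v, r, κ = σ p) and K₁ (vanishes if w.1 v r = σ p: w.1 v r = k ≠ σ p), then ARM for (v, t, κ = k) and K₀: the integral is pE^2 ∫ K₀.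
Sum over k: (card L - 2) pE^2 ∫ K₀ (natural number subtraction is fine: for the event to be non-trivial σ p ≠ y are two
different labels). Step m → m+1: NA (m+1) v p y w = ind (Om v t) NA m (nb v t) (bar t) (tau (w.1 v p)) w (ind_and,
Finset.mul_sum), SHIFT (=). -/
def AV0 (ε : ℝ) (μ : Measure (St H S L)) : Prop :=
  ∀ (M m : ℕ) (v : H) (p : S) (y : L) (G : St H S L → ℝ≥0∞), Test X v p y G →
    ∫⁻ w, G w * NA X M ε m v p y w ∂μ =
      sg ε ^ m * (((Fintype.card L - 2 : ℕ) : ℝ≥0∞) * pE M ε ^ 2) * ∫⁻ w, G w ∂μ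

/-- Packet OE-SEC1 (5.2, second vertex of the run). theorem sec1 {ε μ} (C : Ctx X ε μ) (h : ARM X ε μ) (hA : AV0 X ε μ) : SEC1 X ε μ.
PROOF. le_of_split (or eq) at v, fix σ with σ p ≠ y, σ p ≠ κ (otherwise G ind(w.1 v = σ) = 0: for σ p = κ by the hypothesis on
G). t₂ = σ.symm κ, t₃ = σ.symm y; p, t₂, t₃ are different (κ ≠ y). Av (d+1) v p y k' = O v t₃ ∧ Av d (nb v t₃) (bar t₃) (tau (σ p)) k',
so NA (d+1) v p y = ind (Om v t₃) NA d (nb v t₃) .... K₀ = G ind(w.1 v = σ), K₁ = K₀ ind(ArmOk M v t₂ (σ p)): depends on Sd v t₃ (dep_arm, Past v t₂ ⊆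
Sd v t₃; K₀ vanishes if w.1 v t₂ = σ p since w.1 v t₂ = κ ≠ σ p). K₂ = K₁ ind(Om v t₃) is a test function at (nb v t₃, bar t₃, tau (σ p)) by
test_next (K₁ vanishes if w.1 v t₃ = σ p: it is y). AV0 (d): ∫ K₂ NA d = sg^d (n-2) pE^2 ∫ K₂, C.strip: ∫ K₂ = sg ∫ K₁, ARM: ∫ K₁ = pE ∫ K₀. -/
def SEC1 (ε : ℝ) (μ : Measure (St H S L)) : Prop :=
  ∀ (M M' d : ℕ) (v : H) (p : S) (y κ : L) (G : St H S L → ℝ≥0∞), Test X v p y G → κ ≠ y →
    (∀ w, w.1 v p = κ → G w = 0) →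
    ∫⁻ w, G w * (ind (X.ArmOk (Om X ε w) M' w.1 v ((w.1 v).symm κ) (w.1 v p)) *
      NA X M ε (d + 1) v p y w) ∂μ ≤
      sg ε ^ (d + 1) * (((Fintype.card L - 2 : ℕ) : ℝ≥0∞) * pE M ε ^ 2) * pE M' ε * ∫⁻ w, G w ∂μ

/-- Packet OE-SEC2 (5.2). theorem sec2 {ε μ} (C : Ctx X ε μ) (h : ARM X ε μ) (h1 : SEC1 X ε μ) : SEC2 X ε μ.
PROOF. NA 0 v p y * NA (d+2) v p y = sum over k of ind(Av 0 .. k) NA (d+2) v p y. le_of_split at v, fix σ with σ p ≠ y, t = σ.symm y. Only the n-2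
labels k ≠ σ p, y contribute; fix k, r = σ.symm k; p, t, r different. On {w.1 v = σ}: ind(Av 0 k) NA (d+2) v p y =
ind(ArmOk (M'+1) v t k) ind(ArmOk (M'+1) v r (σ p)) ind(Om v t) NA (d+1) u (bar t) (tau (σ p)), u = nb v t. On {Om v t}: w.1 u (bar t) = tau (w.1 v t)
= tau y (matched) and ArmOk (M'+1) v t k = ¬ Long (M'+1) u (bar t) (tau k) = ¬ (O u t₂ ∧ Long M' (nb u t₂) (bar t₂) (tau (f u (bar t)))) =
ArmOk M' u t₂ (f u (bar t)) with t₂ = (f u).symm (tau k). So with G₂ = G ind(w.1 v = σ) ind(ArmOk (M'+1) v r (σ p)) ind(Om v t), a test function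
at (u, bar t, tau (σ p)) (test_next; the product before ind(Om) depends on Sd v t by dep_arm, Past v r ⊆ Sd v t) which
vanishes also if w.1 u (bar t) = tau k (it is tau y ≠ tau k on the support; tau_inj), SEC1 with κ = tau k, y = tau (σ p) (different since
k ≠ σ p) gives ≤ sg^(d+1) (n-2) pE(M'+1)^2 pE(M') ∫ G₂, and ∫ G₂ = sg ∫ G ind ind(ArmOk (M'+1) v r (σ p)) = sg pE(M'+1) ∫ G ind(w.1 v = σ) (C.strip, ARM).
pE M' ≤ pE (M'+1) (sg ≤ 1). Sum over the n-2 labels k and over σ. -/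
def SEC2 (ε : ℝ) (μ : Measure (St H S L)) : Prop :=
  ∀ (M' d : ℕ) (v : H) (p : S) (y : L) (G : St H S L → ℝ≥0∞), Test X v p y G →
    ∫⁻ w, G w * (NA X (M' + 1) ε 0 v p y w * NA X (M' + 1) ε (d + 2) v p y w) ∂μ ≤
      sg ε ^ (d + 2) * (((Fintype.card L - 2 : ℕ) : ℝ≥0∞) ^ 2 * pE (M' + 1) ε ^ 4) * ∫⁻ w, G w ∂μ

/-- Packet OE-SEC3. theorem sec3 {ε μ} (C : Ctx X ε μ) (hS : SHIFT X ε μ) (h : SEC2 X ε μ) : SEC3 X ε μ.
PROOF. Induction on m with Ψ v p y w = NA m v p y w * NA (m+d+2) v p y w (SHIFT, ≤): NA (m+1) v p y w * NA (m+1+d+2) v p y w =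
ind (Om v t)^2 (..) = ind (Om v t) * Ψ (nb v t) (bar t) (tau (w.1 v p)) w, ind_mul_self. -/
def SEC3 (ε : ℝ) (μ : Measure (St H S L)) : Prop :=
  ∀ (M' m d : ℕ) (v : H) (p : S) (y : L) (G : St H S L → ℝ≥0∞), Test X v p y G →
    ∫⁻ w, G w * (NA X (M' + 1) ε m v p y w * NA X (M' + 1) ε (m + d + 2) v p y w) ∂μ ≤
      sg ε ^ (m + d + 2) * (((Fintype.card L - 2 : ℕ) : ℝ≥0∞) ^ 2 * pE (M' + 1) ε ^ 4) *
        ∫⁻ w, G w ∂μ

/-- Packet OE-NA2. theorem na2 : NA2 X. At most card L - 2 side labels are available (pointwise).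
PROOF. For f matched on O, f v p ≠ y: the set {k | Av O M f m v p y k} misses two different labels; induction on m: m = 0: f v p and y; step: if O v t
fails the set is empty; otherwise the induction hypothesis at (nb v t, bar t, tau (f v p)): f (nb v t) (bar t) = tau y ≠ tau (f v p).
The number is ≤ card L - 2 (Finset.card of a subset of univ \ {a, b}). The sum of the indicators is this number. -/
def NA2 : Prop :=
  ∀ (ε : ℝ) (M m : ℕ) (v : H) (p : S) (y : L) (w : St H S L), w.1 v p ≠ y →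
    NA X M ε m v p y w ≤ ((Fintype.card L - 2 : ℕ) : ℝ≥0∞)

end Pool.Agent.Helper78.OE
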