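import Pool.Agent.Helper73.OE.Defs

/-!
Project OE (MP_fc0446_an), section 6 of paper.md: the choice of the parameters.
-/

namespace Pool.Agent.Helper78.OE

open Pool.Agent.Helper73.OE

/-- Probability of a short arm. -/
noncomputable def pp (P : Par) (ε : ℝ) : ℝ := 1 - (1 - ε) ^ (P.M + 1)

/-- Expected number of available tripods. -/
noncomputable def Lam (n : ℕ) (P : Par) (ε : ℝ) : ℝ :=
  ((n : ℝ) - 2) * pp P ε ^ 2 * ∑ j ∈ Finset.range P.J, (1 - ε) ^ (2 * j + 1)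

/-- Bound for the relative variance. -/
noncomputable def vv (n : ℕ) (P : Par) (ε : ℝ) : ℝ :=
  ((n : ℝ) - 2) / Lam n P ε + 1 / (1 - ε) ^ (2 * P.J) - 1

/-- `η` is an admissible bound for the probability that an update is a fallback. -/
def EtaOK (n : ℕ) (P : Par) (ε η : ℝ) : Prop :=
  1 ≤ η ∨ (0 < Lam n P ε ∧ ε < 1 ∧ ∃ β : ℝ, 0 < β ∧ (1 + β) * Lam n P ε ≤ P.cap ∧
    1 - Lam n P ε / P.cap + 2 * ((1 + β) / β ^ 2 * vv n P ε * Lam n P ε) / P.cap ≤ η)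

/-- Parameters of the scale `l`. -/
def ParL (l c : ℕ) : Par := ⟨2 ^ (9 * l), 2 ^ (9 * l), c⟩

/-- Packet OE-NUM (theorem num : forall n, 3 <= n -> NUM n). There is a constant `C` such that for
all scales `l` and all `ε` of the scale there are `cap` and an admissible `η` with
`2 J + 2 M + η / ε ≤ C 2 ^ (11 l)`.
PROOF. Take C = 2^43, K = 2^l, so K^(-12) / 2^12 <= ε <= K^(-12), J = M = K^9.
Case l = 0: c = 1, η = 1 (first alternative of EtaOK): 4 + 1/ε <= 4 + 4096.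
Case l >= 1 (K >= 2). sg := 1 - ε.
(a) sg^(2J) >= 1 - 2 J ε >= 1 - 2 K^(-3) >= 3/4 (Bernoulli), so with x = 2 K^(-3) <= 1/4:
    1/sg^(2J) - 1 <= 1/(1-x) - 1 = x/(1-x) <= (4/3) x <= 3 K^(-3).
(b) (1-ε)^m <= 1/(1+ε)^m <= 1/(1 + m ε), m = M+1; here 2^(-12) K^(-3) <= m ε <= (K^9+1) K^(-12) <= 2 K^(-3) <= 1,
    so pp >= m ε/(1 + m ε) >= m ε/2 >= 2^(-13) K^(-3).
(c) every summand of the sum in Lam is >= sg^(2J) >= 3/4 (2j+1 <= 2J), so Lam >= (n-2) 2^(-26) K^(-6) (3/4) K^9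
    >= (n-2) 2^(-27) K^3 > 0, hence (n-2)/Lam <= 2^27 K^(-3) and 1/Lam <= 2^27 K^(-3) (n - 2 >= 1), and
    vv <= 2^27 K^(-3) + 3 K^(-3) <= 2^28 K^(-3); vv >= 0.
(d) β = 1/K <= 1, c = ceil((1+β) Lam) (Nat.ceil), so Lam < (1+β) Lam <= c <= (1+β) Lam + 1, c >= 1.
    1 - Lam/c = (c - Lam)/c <= (β Lam + 1)/c <= β + 1/Lam (c >= Lam) <= 1/K + 2^27 K^(-3).
    2 ((1+β)/β^2 vv Lam)/c <= 2 vv/β^2 (as c >= (1+β) Lam) <= 2^29 K^(-3) K^2 = 2^29/K.
    So η := 2^30/K is admissible (second alternative): 1/K + 2^27 K^(-3) + 2^29/K <= 2^30/K.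
(e) η/ε <= (2^30/K) 2^12 K^12 = 2^42 K^11 and 4 K^9 <= 4 K^11, the sum is <= 2^43 K^11 = C 2^(11 l). -/
def NUM (n : ℕ) : Prop :=
  ∃ C : ℝ, 0 ≤ C ∧ ∀ (l : ℕ) (ε : ℝ), (1 / 2 : ℝ) ^ (12 * (l + 1)) ≤ ε → ε ≤ (1 / 2 : ℝ) ^ (12 * l) →
    ∃ (c : ℕ) (η : ℝ), 1 ≤ c ∧ 0 ≤ η ∧ EtaOK n (ParL l c) ε η ∧
      2 * ((2 : ℝ) ^ (9 * l)) + 2 * ((2 : ℝ) ^ (9 * l)) + η / ε ≤ C * 2 ^ (11 * l)

/-- Packet OE-SEQ (theorem seq : SEQ). The sequence of the thresholds.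
PROOF. Put b l = (1/2)^(12 l) (b 0 = 1, strictly decreasing to 0). Greedy recursion on pairs (l, ε) with the
invariant b (l+1) < ε <= b l, beginning with (0, 1): let δ = min (θ l) (ε - b (l+1)) > 0 and ε' = ε - δ. If
ε' > b (l+1) the next pair is (l, ε'), otherwise (ε' = b (l+1)) the next pair is (l+1, b (l+1)). In both cases the
invariant holds, ε' < ε, ε - ε' <= θ l, b (l+1) <= ε', ε <= b l.
Convergence: ε_i is decreasing and positive. For every l the pairs leave the scale l after finitely many steps: as long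
as the scale stays l every step decreases ε by min (θ l) (..) and if the scale stays l the decrease is exactly
θ l > 0 (if ε - b(l+1) <= θ l the step ends the scale), while b(l+1) < ε <= b l: at most (b l - b(l+1))/θ l + 1 steps. So for
every l there is an i with l_i >= l (induction on l), hence ε_i <= b l; with the monotonicity ε_i -> 0.
Summability: potential. Let W >= 0 with sum W l b l < infinity, R(l) = tsum over m of W (l+m) (b (l+m) - b (l+m+1))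
(the terms are between 0 and W(l+m) b(l+m): summable), so R(l) = W l (b l - b(l+1)) + R(l+1). Put
Pot(l, ε) = W l (ε - b (l+1)) + R(l+1) >= 0. One step: Pot(l, ε) - Pot(next) = W l (ε - ε'): clear if the scale stays l; if
the next pair is (l+1, b(l+1)) then Pot(next) = W (l+1) (b(l+1) - b(l+2)) + R(l+2) = R(l+1) and
Pot(l, ε) - R(l+1) = W l (ε - b(l+1)). So the partial sums of (ε_i - ε_(i+1)) W (l_i) are Pot(start) - Pot(end) <= Pot(0, 1),
the terms are >= 0: summable (summable_of_sum_range_le). -/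
def SEQ : Prop :=
  ∀ θ : ℕ → ℝ, (∀ l, 0 < θ l) → ∃ (ε : ℕ → ℝ) (l : ℕ → ℕ), ε 0 = 1 ∧
    (∀ i, ε (i + 1) < ε i ∧ ε i - ε (i + 1) ≤ θ (l i) ∧
      (1 / 2 : ℝ) ^ (12 * (l i + 1)) ≤ ε (i + 1) ∧ ε i ≤ (1 / 2 : ℝ) ^ (12 * l i)) ∧
    Filter.Tendsto ε Filter.atTop (nhds 0) ∧
    ∀ W : ℕ → ℝ, (∀ l, 0 ≤ W l) → Summable (fun l => W l * (1 / 2 : ℝ) ^ (12 * l)) →
      Summable (fun i => (ε i - ε (i + 1)) * W (l i))

end Pool.Agent.Helper78.OE
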