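import Pool.Agent.Helper78.OE.GoalsC2
import Pool.Agent.Helper78.OE.NumC
import Pool.Agent.Helper73.OE.Iface
import Pool.Agent.Helper75.OE.GoalsA

/-!
Project OE (MP_fc0446_an): sections 5.3-5.5.
-/

open MeasureTheory Pool.Agent.Helper73.OE
open scoped ENNReal

namespace Pool.Agent.Helper78.OE

variable {H S L : Type} [Group H] (X : Sys H S L) [Fintype S] [Fintype L]

/-- Packet OE-MOM. theorem mom {ε μ} (C : Ctx X ε μ) (h : AV0 X ε μ) (h3 : SEC3 X ε μ) (h2 : NA2 X) : MOM X ε μ.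
Moments of the number of available indices.
PROOF. N := card of AS = sum over j : Fin J of NA (2 j + 1) (Finset.card_filter over Fin J × L, sum over the product).
n = card L ≥ 3, so ((n - 2 : ℕ) : ℝ≥0∞) = ofReal (n - 2); sg ε = ofReal (1 - ε); pE M ε = ofReal (1 - (1-ε)^(M+1)) (0 ≤ 1-ε ≤ 1,
ENNReal.ofReal_sub, ofReal_pow, ofReal_one). First moment: AV0 with m = 2j+1, sum over j < J; LamE := (n-2) pE^2 sum sg^(2j+1) =
ofReal (Lam n P ε) (all factors ≥ 0). Second moment, M = M' + 1: N^2 = sum_j NA(2j+1)^2 + 2 sum_{j<j'} NA(2j+1) NA(2j'+1).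
Diagonal: NA^2 ≤ (n-2) NA where w.1 v p ≠ y (NA2), and G = 0 elsewhere: ≤ (n-2) ∫ G N = (n-2) Lam ∫ G. Off the diagonal:
SEC3 with m = 2j+1, d = 2(j'-j)-2: ≤ sg^(2j'+1) (n-2)^2 p^4 ∫ G. And with σ = 1-ε > 0: 2 sum_{j<j'} σ^(2j'+1) ≤ (sum_j σ^(2j+1))^2/σ^(2J), because
(sum_j σ^(2j+1))^2 ≥ 2 sum_{j<j'} σ^(2j+1) σ^(2j'+1) and σ^(2j+1) ≥ σ^(2J) for j < J. So the off-diagonal part is ≤ Lam^2/σ^(2J) ∫ G. -/
def MOM (ε : ℝ) (μ : Measure (St H S L)) : Prop :=
  3 ≤ Fintype.card L → ∀ (P : Par) (v : H) (p : S) (y : L) (G : St H S L → ℝ≥0∞), Test X v p y G →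
    (∫⁻ w, G w * ((X.AS P (Om X ε w) w.1 v p y).card : ℝ≥0∞) ∂μ =
      ENNReal.ofReal (Lam (Fintype.card L) P ε) * ∫⁻ w, G w ∂μ) ∧
    (1 ≤ P.M → ε < 1 → ∫⁻ w, G w * ((X.AS P (Om X ε w) w.1 v p y).card : ℝ≥0∞) ^ 2 ∂μ ≤
      ENNReal.ofReal (((Fintype.card L : ℝ) - 2) * Lam (Fintype.card L) P ε +
        Lam (Fintype.card L) P ε ^ 2 / (1 - ε) ^ (2 * P.J)) * ∫⁻ w, G w ∂μ)

/-- Packet OE-CHEB (5.3). theorem cheb : CHEB. An abstract Chebyshev inequality.
PROOF. Pointwise for a natural number N and real numbers Λ > 0, β > 0, c ≥ (1+β) Λ: with A := β^2 Λ/(1+β),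
A N ind(c < N) + 2 Λ N ≤ N^2 + Λ^2. [If N ≤ c: 2 Λ N ≤ N^2 + Λ^2. If N > c: N = (1+β) Λ u with u ≥ 1, N - Λ ≥ β Λ u (as (1+β) u - 1 ≥ β u), so
(N - Λ)^2 ≥ β^2 Λ^2 u^2 ≥ β^2 Λ^2 u = A N.] Multiply by G (≥ 0) and integrate (in ℝ≥0∞, with ofReal of the constants):
A ∫ G N ind + 2 Λ ∫ G N ≤ ∫ G N^2 + Λ^2 ∫ G, with ∫ G N = Λ ∫ G and ∫ G N^2 ≤ K ∫ G: A ∫ G N ind + 2 Λ^2 ∫ G ≤ (K + Λ^2) ∫ G. All
terms are finite (∫ G < ∞), so K ≥ Λ^2 or ∫ G = 0, and A ∫ G N ind ≤ (K - Λ^2) ∫ G. Divide by A: 1/A = (1+β)/(β^2 Λ). (If ∫ G = 0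
then ∫ G N ind = 0 as well: G = 0 a.e.) -/
def CHEB : Prop :=
  ∀ {Ω : Type} [MeasurableSpace Ω] (μ : Measure Ω) (G : Ω → ℝ≥0∞) (N : Ω → ℕ) (Λ K β : ℝ) (c : ℕ),
    Measurable G → Measurable N → ∫⁻ w, G w ∂μ ≠ ∞ → 0 < Λ → 0 ≤ K → 0 < β → (1 + β) * Λ ≤ c →
    ∫⁻ w, G w * (N w : ℝ≥0∞) ∂μ = ENNReal.ofReal Λ * ∫⁻ w, G w ∂μ →
    ∫⁻ w, G w * (N w : ℝ≥0∞) ^ 2 ∂μ ≤ ENNReal.ofReal K * ∫⁻ w, G w ∂μ →
    ∫⁻ w, G w * ((N w : ℝ≥0∞) * ind (c < N w)) ∂μ ≤
      ENNReal.ofReal ((1 + β) / β ^ 2 * ((K - Λ ^ 2) / Λ)) * ∫⁻ w, G w ∂μ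

/-- The label pair is closed. -/
def ClL (ε : ℝ) (c : (unitInterval × unitInterval) × (unitInterval × unitInterval)) : Prop :=
  (c.1.1 : ℝ) ^ 2 ≤ ε ∧ (c.2.1 : ℝ) ^ 2 ≤ ε

/-- `b` of the labels of the edge, times the indicator of: the label at `(v, s)` is `x`, and the
image under `tau` of the other label is `y`. -/
noncomputable def Gxy (b : (unitInterval × unitInterval) × (unitInterval × unitInterval) → ℝ≥0∞)
    (v : H) (s : S) (x y : L) (w : St H S L) : ℝ≥0∞ :=
  b (w.2 (v, s), w.2 (X.rev (v, s))) *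
    (ind (w.1 v s = x) * ind (X.tau (w.1 (X.nb v s) (X.bar s)) = y))

/-- Packet OE-ESYM. theorem esym (ε : ℝ) : ESYM X ε. Exchange of two labels at a closed edge.
PROOF. Apply IsStar to v and Λ = {v, nb v s} (PC v Λ: dist v v = 0; the vertex nb v s has only the neighbour v closer to v,
parent_unique and nb_bar). The function depends on q only through Λ. Let O = Op ε η. If (v,s) is open both integrands vanish (b = 0
unless ClL). If it is closed, every configuration on Λ is matched inside Λ: an edge (z, r) with both ends in Λ is (v, s) or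
its reverse (nb_ne, nb_inj), which is not in O. So the starSums of both functions are equal by the bijection
f ↦ (f with f v replaced by (f v).trans (Equiv.swap x y)) of Λ → (S ≃ L). -/
def ESYM (ε : ℝ) : Prop :=
  ∀ μ : Measure (St H S L), X.IsStar ε μ →
    ∀ b : (unitInterval × unitInterval) × (unitInterval × unitInterval) → ℝ≥0∞, Measurable b →
    (∀ c, ¬ ClL ε c → b c = 0) → ∀ (v : H) (s : S) (x y : L),
      ∫⁻ w, Gxy X b v s x y w ∂μ = ∫⁻ w, Gxy X b v s y y w ∂μ

/-- Packet OE-TRL (the bijection of 5.4 under the law (*)). theorem trl {ε μ} (C : Ctx X ε μ)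
(hB : Pool.Agent.Helper75.OE.A_TRB) (hT : Pool.Agent.Helper75.OE.A_TLOC) : TRL X ε μ.
PROOF. Almost surely Op ε w.2 = Om X ε w as sets of edges (C.om, funext/propext), so replace Om by Op (lintegral_congr_ae). The
integrand F(q, η) with Op ε η then depends on q only through the ball Λ of radius R = 10 (J + M + 10) about v: C.locb with O = O' = Op ε η
(AS at q; TRi at all vertices of a ball of radius 2J + M + 1, m = 2i+1 ≤ 2J - 1, then AS at TRi q; the vertices v, nb v s); it is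
measurable (C.meas, second version, for the AS parts). PC v Λ: PC_ball, Λ = (finite_ball).toFinset. Apply C.star on both sides. For fixed η the factor b comes
out; if (v,s) is open it is 0. If closed: A_TRB (O = Op ε η, symmetric by Op_symm) with F' q = ind (tau (q (nb v s) (bar s)) = y) * ψ (card AS P O q v s x),
because TRi P O i v s y q (nb v s) = q (nb v s) for q = glue Λ f, MA O Λ q, i available: let O' = X.inside Λ O, then MA O' univ q, and
TR O' .. = TR O .. on the ball of radius 1 and Av O' = Av O (C.locb), and by A_TLOC for O' nothing changes outside Sd v s, nb v s is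
outside (nb_notMem_Sd); y ≠ q v s = x. starSum of products of indicators = starSum of if-then-else. -/
def TRL (ε : ℝ) (μ : Measure (St H S L)) : Prop :=
  ∀ b : (unitInterval × unitInterval) × (unitInterval × unitInterval) → ℝ≥0∞, Measurable b →
    (∀ c, ¬ ClL ε c → b c = 0) → ∀ (P : Par) (v : H) (s : S) (x y : L) (i : Fin P.J × L)
      (ψ : ℕ → ℝ≥0∞), x ≠ y →
      ∫⁻ w, Gxy X b v s x y w * (ind (i ∈ X.AS P (Om X ε w) w.1 v s y) *
        ψ (X.AS P (Om X ε w) (X.TRi P (Om X ε w) i v s y w.1) v s x).card) ∂μ =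
      ∫⁻ w, Gxy X b v s y y w * (ind (i ∈ X.AS P (Om X ε w) w.1 v s x) *
        ψ (X.AS P (Om X ε w) w.1 v s x).card) ∂μ

open Classical in
/-- The indices for which the cheap move is accepted (new label `y`). -/
noncomputable def GAf (P : Par) (O : Edges H S) (v : H) (s : S) (y : L) (f : Cfg H S L) :
    Finset (Fin P.J × L) :=
  (X.AS P O f v s y).filter fun i => (X.AS P O f v s y).card ≤ P.cap ∧
    (X.AS P O (X.TRi P O i v s y f) v s (f v s)).card ≤ P.cap

/-- The probability of a fallback at the edge. -/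
noncomputable def fb (P : Par) (ε : ℝ) (v : H) (s : S) (y : L) (w : St H S L) : ℝ≥0∞ :=
  ((P.cap - (GAf X P (Om X ε w) v s y w.1).card : ℕ) : ℝ≥0∞) / P.cap

/-- Packet OE-MGA. theorem mga {ε μ} (C : Ctx X ε μ) (hT : Pool.Agent.Helper75.OE.A_TLOC) : MGA X ε.
Measurability and dependence of fb.
PROOF. Measurability: C.meas (first version) for F O f = (P.cap - (GAf X P O v s y f).card)/P.cap with a large ball about v (C.locb for AS, and
for TR at the vertices of the ball of radius 2J + M + 1, then AS at the new configuration). Dependence: let w, w' agree on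
A = Past (nb v s) (bar s) = insert (nb v s) (Sd v s) (Past_nb). Then Gxy agrees (v, nb v s ∈ A, and the labels of the edge). If Gxy = 0 the
products are 0. Otherwise the edge is closed for both (b ≠ 0), w.1 v s = x ≠ y, and (Om w, w.1), (Om w', w'.1) agree on Sd v s
(Om_agr, Agr.mono). side_AS: the sets AS are equal. For i in AS, T = TRi .. w.1 and T' = TRi .. w'.1 agree on Sd v s (A_TLOC second part: MA (Om w) (Sd v s) from MA_Om);
T is matched on Om w inside Sd v s (as X.MA .. univ is needed for side_AS use instead the first part of A_TLOC with f = T, g = T' for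
m = 2 i'.1 + 1: it needs only MA O (Sd v s) T, which is A_TRM; T v s = y ≠ x is A_TRM too). So (AS P (Om w) T v s x) = (AS P (Om w') T' v s x). Hence
GAf is the same. [You may also assume hM : Pool.Agent.Helper75.OE.A_TRM.] -/
def MGA (ε : ℝ) : Prop :=
  ∀ (P : Par) (v : H) (s : S) (y : L),
    Measurable (fb X P ε v s y : St H S L → ℝ≥0∞) ∧
    ∀ b : (unitInterval × unitInterval) × (unitInterval × unitInterval) → ℝ≥0∞,
      (∀ c, ¬ ClL ε c → b c = 0) → ∀ x : L, x ≠ y →
      X.DepOn (X.Past (X.nb v s) (X.bar s)) (fun w => Gxy X b v s x y w * fb X P ε v s y w)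

/-- Packet OE-HH (5.4). theorem hh {ε μ} (C : Ctx X ε μ) (hM : MOM X ε μ) (hC : CHEB) (hE : ESYM X ε) (hT : TRL X ε μ) (hG : MGA X ε) : HH X ε μ.
PROOF. Write G = Gxy b v s x y, G' = Gxy b v s y y, N w = card AS P (Om w) w.1 v s y, N' w = card AS P (Om w) w.1 v s x. G is a test function for (v, s, y) and G' one for
(v, s, x) (b ≤ 1; v, nb v s ∈ Past v s, labels of the edge; x ≠ y). ∫ G = ∫ G' (hE). If 1 ≤ η: fb ≤ 1. Otherwise EtaOK gives β; put n = card L, T =
(1+β)/β^2 vv Lam. MOM, CHEB with Λ = Lam, K = (n-2) Lam + Lam^2/(1-ε)^(2J), c = cap: (K - Λ^2)/Λ = vv Lam, so ∫ G N ind(cap < N) ≤ ofReal T ∫ G, and the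
same for G', N'. Pointwise (on {G ≠ 0}: w.1 v s = x): N ≤ card GAf + N ind(cap < N) + sum over i of ind(i ∈ AS) ind(cap < card AS P (Om) (TRi i) v s x). By TRL with ψ c = ind(cap < c) the last
term integrates to sum over i of ∫ G' ind(i ∈ AS' ) ind(cap < N') = ∫ G' N' ind(cap < N') ≤ ofReal T ∫ G' = ofReal T ∫ G. So
ofReal Lam ∫ G = ∫ G N ≤ ∫ G card GAf + 2 ofReal T ∫ G. And card GAf ≤ cap, so ∫ G (cap - card GAf) + ∫ G card GAf = cap ∫ G. All terms are finite (μ univ = 1).
Hence ∫ G (cap - card GAf) ≤ ofReal(cap - Lam + 2 T) ∫ G (in real numbers, toReal), divide by cap > 0 ((1+β) Lam ≤ cap, Lam > 0). -/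
def HH (ε : ℝ) (μ : Measure (St H S L)) : Prop :=
  3 ≤ Fintype.card L →
    ∀ b : (unitInterval × unitInterval) × (unitInterval × unitInterval) → ℝ≥0∞, Measurable b →
    (∀ c, ¬ ClL ε c → b c = 0) → (∀ c, b c ≤ 1) → ∀ (P : Par) (η : ℝ), 1 ≤ P.M → 1 ≤ P.cap →
      EtaOK (Fintype.card L) P ε η → ∀ (v : H) (s : S) (x y : L), x ≠ y →
      ∫⁻ w, Gxy X b v s x y w * fb X P ε v s y w ∂μ ≤
        ENNReal.ofReal η * ∫⁻ w, Gxy X b v s x y w ∂μ

/-- Packet OE-SEED. theorem seed : SEED. The seeds are uniform.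
PROOF. lamS = infinitePi of volume on unitInterval; the coordinate e has the law volume (measurePreserving_eval_infinitePi); so the
left side is ∫⁻ x : unitInterval, φ ⌊cap x⌋₊ = ∫ over [0,1] = sum over k < cap of φ k volume {x | ⌊cap x⌋₊ = k}, where
{x | ⌊cap x⌋₊ = k} = [k/cap, (k+1)/cap) ∩ [0,1] for k < cap has volume 1/cap, and the point x = 1 is a null set. -/
def SEED (H S : Type) : Prop :=
  ∀ (P : Par), 1 ≤ P.cap → ∀ (e : H × S) (φ : ℕ → ℝ≥0∞),
    ∫⁻ u, φ (Sys.sd P u e) ∂(Sys.lamS H S) = (∑ k ∈ Finset.range P.cap, φ k) / P.cap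

/-- Packet OE-FBC. theorem fbc (h : Pool.Agent.Helper75.OE.A_PICK) : FBC X. The number of the seeds which give a fallback.
PROOF. u ↦ i is a bijection between {u < cap | ∃ i, Cheap .. u f i} and GAf: Cheap P O v s u f i means pick cap (AS ..) u = some i and the second
condition of GAf; by A_PICK i ∈ AS and card AS ≤ cap, u < card AS ≤ cap; conversely for i ∈ GAf there is exactly one u. So the number of the
other u < cap is cap - card GAf. The sum of the indicators is this number. -/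
def FBC : Prop :=
  ∀ (P : Par) (O : Edges H S) (v : H) (s : S) (f : Cfg H S L),
    ∑ u ∈ Finset.range P.cap, ind (¬ ∃ i, X.Cheap P O v s u f i) =
      ((P.cap - (GAf X P O v s (X.tau (f (X.nb v s) (X.bar s))) f).card : ℕ) : ℝ≥0∞)

/-- Packet OE-CHF. theorem chf : CHF X. The number of the vertices changed by a flip, and by the flip of an arm with at most M vertices.
PROOF. (No matchedness.) Pointwise for n: ind (flipP O f z n v p y ≠ 1) ≤ sum over r of ind (z is the r-th vertex of the run and Long r): define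
vtx r v p y recursively (vtx 0 = v, vtx (r+1) v p y = vtx r at the next vertex); flipP O f z n v p y ≠ 1 implies ∃ r ≤ n, Long O f r v p y ∧ z = vtx r (induction on n).
So ∑' z, ind (flip .. z ≠ f z) ≤ ∑' z ∑' r, ind (Long r) ind (z = vtx r) = ∑' r, ind (Long r) (ENNReal.tsum_comm). If Long M fails, Long r
fails for all r ≥ M (Long (r+1) implies Long r: induction), so ∑' r, ind (Long r) ≤ M. -/
def CHF : Prop :=
  ∀ (O : Edges H S) (f : Cfg H S L) (v : H) (p : S) (y : L),
    (∑' z : H, ind (X.flip O v p y f z ≠ f z) ≤ ∑' r : ℕ, ind (X.Long O f r v p y)) ∧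
    (∀ M : ℕ, ¬ X.Long O f M v p y → ∑' r : ℕ, ind (X.Long O f r v p y) ≤ M) ∧
    (∀ (M : ℕ) (g : H → ℕ), ¬ X.Long O f M v p y →
      ∑' z : H, ind (X.flipP O f z (g z) v p y ≠ 1) ≤ M)

/-- Packet OE-CHT. theorem cht (h : CHF X) : CHT X. The number of the vertices changed by an available tripod move.
PROOF. Induction on m: triP (m+1) ≠ 1 at z implies z = v or triP m at the next vertex ≠ 1: at most 1 + (m + 1 + 2 M) vertices. m = 0: z = v, or the
permutation armP .. t k is not 1, or armP .. r x is not 1; armP is flipP from nb v t with the fuel dist (nb v t) z if (v,t) is open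
(then Long M fails by ArmOk: CHF third part), 1 otherwise: at most 1 + M + M vertices. TR z ≠ f z implies triP ≠ 1. -/
def CHT : Prop :=
  ∀ (O : Edges H S) (f : Cfg H S L) (M m : ℕ) (v : H) (p : S) (y k : L),
    X.Av O M f m v p y k → ∑' z : H, ind (X.TR O m v p y k f z ≠ f z) ≤ ((m + 1 + 2 * M : ℕ) : ℝ≥0∞)

/-- Packet OE-CHU. theorem chu (h1 : CHF X) (h2 : CHT X) (h : Pool.Agent.Helper75.OE.A_PICK) : CHU X. The number of the vertices changed by an update.
PROOF. By the cases of the definition of Upd: nothing if tau (f (nb v s) (bar s)) = f v s; cheap: TRi with an index of AS (A_PICK), m = 2 i.1 + 1 ≤ 2 J - 1: at most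
2 J + 2 M vertices (CHT); fallback: CHF first part. -/
def CHU : Prop :=
  ∀ (P : Par) (O : Edges H S) (v : H) (s : S) (u : ℕ) (f : Cfg H S L),
    ∑' z : H, ind (X.Upd P O v s u f z ≠ f z) ≤
      ind (f v s ≠ X.tau (f (X.nb v s) (X.bar s))) * (((2 * P.J + 2 * P.M : ℕ) : ℝ≥0∞) +
        ind (¬ ∃ i, X.Cheap P O v s u f i) *
          ∑' r : ℕ, ind (X.Long O f r (X.nb v s) (X.bar s) (X.tau (f v s))))

/-- Packet OE-CHM. theorem chm [Countable H] (hM : MEAS X) (hL : LOCB X) : CHM X. Measurability of the change of the static update at z.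
PROOF. For a fixed natural number u the function F O f = Upd P O v s u f z sees only a ball: f v, f (nb v s), the sets AS P O f v s y' (LOCB), for every index i the set AS P O (TRi i f) v s x'
(LOCB: TR on a ball, then AS), the permutation triP at z (from TR at z) and flipP at z with the fuel dist (nb v s) z (LOCB fourth part). So {w | Upd P (Op ε w.2) v s u w.1 z ≠ w.1 z} is
measurable (MEAS second version). The set of the statement is the union over u : ℕ of {sd P u' (v,s) = u} ∩ (Si ∩ Pos ∩ this set for u); sd is a measurable function of the coordinate. -/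
def CHM : Prop :=
  ∀ (P : Par) (ε ε' : ℝ) (v : H) (s : S) (z : H),
    MeasurableSet {w : St H S L × Seeds H S | X.ChSt P ε ε' w.1.1 w.1.2 w.2 v s z}

end Pool.Agent.Helper78.OE
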