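import Pool.Agent.Helper73.OE.Geo

/-!
Project OE (MP_fc0446_an), sections 4 and 5 of paper.md: definitions and basic facts.
-/

open MeasureTheory Pool.Agent.Helper73.OE
open scoped ENNReal

namespace Pool.Agent.Helper78.OE

variable {H S L : Type} [Group H] (X : Sys H S L)

/-- States: configuration and environment. -/
abbrev St (H S L : Type) := Cfg H S L × Env H S

/-- The indicator of a proposition. -/
noncomputable def ind (p : Prop) : ℝ≥0∞ := by classical exact if p then 1 else 0

theorem ind_true {p : Prop} (h : p) : ind p = 1 := by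
  unfold ind; simp [h]

theorem ind_false {p : Prop} (h : ¬ p) : ind p = 0 := by
  unfold ind; simp [h]

theorem ind_le_one (p : Prop) : ind p ≤ 1 := by
  by_cases h : p
  · rw [ind_true h]
  · rw [ind_false h]; exact zero_le

theorem ind_and (p q : Prop) : ind (p ∧ q) = ind p * ind q := by
  by_cases h : p
  · by_cases h' : q
    · rw [ind_true h, ind_true h', ind_true ⟨h, h'⟩, one_mul]
    · rw [ind_false h', ind_false (fun x => h' x.2), mul_zero]
  · rw [ind_false h, ind_false (fun x => h x.1), zero_mul]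

theorem ind_mono {p q : Prop} (h : p → q) : ind p ≤ ind q := by
  by_cases h' : p
  · rw [ind_true h', ind_true (h h')]
  · rw [ind_false h']; exact zero_le

theorem ind_congr {p q : Prop} (h : p ↔ q) : ind p = ind q := by
  rw [propext h]

theorem ind_add_not (p : Prop) : ind p + ind (¬ p) = 1 := by
  by_cases h : p
  · rw [ind_true h, ind_false (not_not.2 h), add_zero]
  · rw [ind_false h, ind_true h, zero_add]

theorem ind_mul_self (p : Prop) : ind p * ind p = ind p := by
  rw [← ind_and]; exact ind_congr ⟨fun h => h.1, fun h => ⟨h, h⟩⟩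

theorem measurable_ind {α : Type*} [MeasurableSpace α] {p : α → Prop}
    (h : MeasurableSet {a | p a}) : Measurable fun a => ind (p a) := by
  classical
  have : (fun a => ind (p a)) = Set.indicator {a | p a} (fun _ => 1) := by
    funext a
    by_cases hp : p a
    · rw [ind_true hp, Set.indicator_of_mem (show a ∈ {a | p a} from hp)]
    · rw [ind_false hp, Set.indicator_of_notMem (show a ∉ {a | p a} from hp)]
  rw [this]
  exact measurable_const.indicator h

/-- The open and matched edges of the state. All functionals of the state are evaluated at this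
set of edges: it is symmetric, the configuration is always matched on it, and it is almost surely
equal to the set of the open edges. -/
def Om (ε : ℝ) (w : St H S L) : Edges H S := fun v s => X.Op ε w.2 v s ∧ X.Mt w.1 v s

/-- `(O, f)` and `(O', f')` agree on `A`: on the vertices of `A` and on the edges with both ends
in `A`. -/
def Agr (A : Set H) (O O' : Edges H S) (f f' : Cfg H S L) : Prop :=
  (∀ z ∈ A, f z = f' z) ∧ ∀ z s, z ∈ A → X.nb z s ∈ A → (O z s ↔ O' z s)

/-- Test functions at `v` with the in-direction `p` and the new label `y`: bounded by `1`, they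
depend on the past only and vanish if the in-label is `y`. -/
structure Test (v : H) (p : S) (y : L) (G : St H S L → ℝ≥0∞) : Prop where
  meas : Measurable G
  dep : X.DepOn (X.Past v p) G
  van : ∀ w, w.1 v p = y → G w = 0
  le_one : ∀ w, G w ≤ 1

theorem Op_symm (ε : ℝ) (η : Env H S) (v : H) (s : S) :
    X.Op ε η v s ↔ X.Op ε η (X.nb v s) (X.bar s) := by
  unfold Sys.Op Sys.Cl
  have h : X.rev (X.nb v s, X.bar s) = (v, s) := X.rev_rev (v, s)
  rw [h]
  unfold Sys.rev
  rw [and_comm]

theorem Mt_symm (f : Cfg H S L) (v : H) (s : S) :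
    X.Mt f v s ↔ X.Mt f (X.nb v s) (X.bar s) := by
  unfold Sys.Mt
  rw [X.nb_bar, X.bar_bar]
  constructor
  · intro h; rw [h, X.tau_tau]
  · intro h; rw [h, X.tau_tau]

theorem Om_symm (ε : ℝ) (w : St H S L) : X.Sym (Om X ε w) := by
  intro v s
  unfold Om
  rw [← Op_symm, ← Mt_symm]

theorem MA_Om (ε : ℝ) (w : St H S L) : X.MA (Om X ε w) Set.univ w.1 :=
  fun _ _ _ _ h => h.2

theorem Op_congr {ε : ℝ} {η η' : Env H S} {v : H} {s : S} (h1 : η (v, s) = η' (v, s))
    (h2 : η (X.rev (v, s)) = η' (X.rev (v, s))) : X.Op ε η v s ↔ X.Op ε η' v s := by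
  unfold Sys.Op Sys.Cl
  rw [h1, h2]

theorem Om_agr {A : Set H} {ε : ℝ} {w w' : St H S L} (h1 : ∀ z ∈ A, w.1 z = w'.1 z)
    (h2 : ∀ z s, z ∈ A → X.nb z s ∈ A → w.2 (z, s) = w'.2 (z, s)) :
    Agr X A (Om X ε w) (Om X ε w') w.1 w'.1 := by
  refine ⟨h1, fun z s hz hs => ?_⟩
  unfold Om
  have e1 : X.Op ε w.2 z s ↔ X.Op ε w'.2 z s := by
    apply Op_congr
    · exact h2 z s hz hs
    · apply h2 _ _ hs
      rw [X.nb_bar]; exact hz
  have e2 : X.Mt w.1 z s ↔ X.Mt w'.1 z s := by
    unfold Sys.Mt
    rw [h1 z hz, h1 _ hs]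
  rw [e1, e2]

theorem Agr.mono {A B : Set H} {O O' : Edges H S} {f f' : Cfg H S L} (h : Agr X A O O' f f')
    (hB : B ⊆ A) : Agr X B O O' f f' :=
  ⟨fun z hz => h.1 z (hB hz), fun z s hz hs => h.2 z s (hB hz) (hB hs)⟩

theorem DepOn.mono {α : Type} {A B : Set H} {G : St H S L → α} (h : X.DepOn B G) (hB : B ⊆ A) :
    X.DepOn A G :=
  fun w w' h1 h2 => h w w' (fun z hz => h1 z (hB hz)) (fun z s hz hs => h2 z s (hB hz) (hB hs))

/-- A function of the state through `(Om w, w.1)` on `A`. -/
theorem DepOn.of_agr {α : Type} {A : Set H} {ε : ℝ} {F : Edges H S → Cfg H S L → α}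
    (h : ∀ O O' f f', X.Sym O → X.Sym O' → X.MA O Set.univ f → X.MA O' Set.univ f' →
      Agr X A O O' f f' → F O f = F O' f') :
    X.DepOn A (fun w : St H S L => F (Om X ε w) w.1) :=
  fun w w' h1 h2 => h _ _ _ _ (Om_symm X ε w) (Om_symm X ε w') (MA_Om X ε w) (MA_Om X ε w')
    (Om_agr X h1 h2)

end Pool.Agent.Helper78.OE
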