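import Pool.Agent.Helper78.OE.GoalsC3
import Pool.Agent.Helper73.OE.Consist

/-!
Project OE: the context of the moment computations from the law (*).
-/

open MeasureTheory Pool.Agent.Helper73.OE
open scoped ENNReal

namespace Pool.Agent.Helper78.OE

variable {H S L : Type} [Group H] (X : Sys H S L) [Fintype S] [Fintype L]

/-- The law of the environment has total mass `1`. -/
theorem lamE_univ : (Sys.lamE H S) Set.univ = 1 := by
  unfold Sys.lamE
  exact measure_univ

theorem PC_single (o : H) : X.PC o (({o} : Finset H) : Set H) := by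
  refine ⟨by simp, ?_⟩
  intro z hz s hs
  rw [Finset.coe_singleton, Set.mem_singleton_iff] at hz
  subst hz
  rw [X.dist_self] at hs
  omega

open Classical in
theorem PC_pair (v : H) (t : S) : X.PC v (({v, X.nb v t} : Finset H) : Set H) := by
  refine ⟨by simp, ?_⟩
  intro z hz s hs
  rw [Finset.coe_insert, Finset.coe_singleton] at hz ⊢
  rcases hz with hz | hz
  · subst hz
    rw [X.dist_self] at hs
    omega
  · rw [Set.mem_singleton_iff] at hz
    subst hz
    left
    have h1 : X.dist v (X.nb v t) = X.dist v (X.nb (X.nb v t) (X.bar t)) + 1 := by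
      rw [X.nb_bar, X.dist_self, X.dist_nb_self]
    rw [X.parent_unique hs h1, X.nb_bar]

theorem star_prob {ε : ℝ} {μ : Measure (St H S L)} (h : X.IsStar ε μ) : μ Set.univ = 1 := by
  have h1 := h 1 {1} (PC_single X 1) (fun _ => 1) measurable_const (fun _ _ _ _ => rfl)
  rw [lintegral_const, one_mul] at h1
  rw [h1]
  have h2 : ∀ η : Env H S, X.starAvg {1} (X.Op ε η) (fun _ : Cfg H S L => 1) = 1 := fun η =>
    X.starAvg_one _ (PC_single X 1)
  simp only [h2]
  rw [lintegral_const, one_mul, lamE_univ]

theorem measurable_Op (ε : ℝ) (v : H) (s : S) : MeasurableSet {η : Env H S | X.Op ε η v s} := by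
  have h : ∀ e : H × S, MeasurableSet {η : Env H S | ((η e).1 : ℝ) ^ 2 ≤ ε} := by
    intro e
    have hm : Measurable fun η : Env H S => ((η e).1 : ℝ) ^ 2 :=
      (measurable_subtype_coe.comp (measurable_fst.comp (measurable_pi_apply e))).pow_const 2
    exact measurableSet_le hm measurable_const
  exact ((h (v, s)).inter (h (X.rev (v, s)))).compl

theorem measurableSet_Mt (v : H) (s : S) : MeasurableSet {q : Cfg H S L | X.Mt q v s} := by
  have h1 : Measurable fun q : Cfg H S L => (q (X.nb v s), q v) :=
    (measurable_pi_apply _).prodMk (measurable_pi_apply _)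
  have h2 : MeasurableSet {x : (S ≃ L) × (S ≃ L) | x.1 (X.bar s) = X.tau (x.2 s)} :=
    Set.Finite.measurableSet (Set.toFinite _)
  exact h1 h2

/-- Almost surely the open edges are matched. -/
theorem star_matched [Countable H] {ε : ℝ} {μ : Measure (St H S L)} (h : X.IsStar ε μ) :
    ∀ᵐ w ∂μ, ∀ v s, (X.Op ε w.2 v s ↔ Om X ε w v s) := by
  classical
  rw [ae_all_iff]
  intro v
  rw [ae_all_iff]
  intro s
  have hO : Measurable fun w : St H S L => ind (X.Op ε w.2 v s) :=
    (measurable_ind (measurable_Op X ε v s)).comp measurable_snd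
  have hM : Measurable fun w : St H S L => ind (¬ X.Mt w.1 v s) :=
    (measurable_ind (measurableSet_Mt X v s).compl).comp measurable_fst
  have h1 := h v {v, X.nb v s} (PC_pair X v s)
    (fun w => ind (X.Op ε w.2 v s) * ind (¬ X.Mt w.1 v s)) (hO.mul hM) (by
      intro q q' η hq
      have e1 := hq v (by simp)
      have e2 := hq (X.nb v s) (by simp)
      have : X.Mt q v s ↔ X.Mt q' v s := by
        unfold Sys.Mt; rw [e1, e2]
      show ind _ * ind (¬ X.Mt q v s) = ind _ * ind (¬ X.Mt q' v s)
      rw [this])
  have h2 : ∀ η : Env H S, X.starAvg {v, X.nb v s} (X.Op ε η)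
      (fun q => ind (X.Op ε η v s) * ind (¬ X.Mt q v s)) = 0 := by
    intro η
    unfold Sys.starAvg
    have : X.starSum {v, X.nb v s} (X.Op ε η)
        (fun q => ind (X.Op ε η v s) * ind (¬ X.Mt q v s)) = 0 := by
      unfold Sys.starSum
      refine Finset.sum_eq_zero fun f _ => ?_
      split_ifs with hf
      · beta_reduce
        by_cases ho : X.Op ε η v s
        · have := hf v s (by simp) (by simp) ho
          rw [ind_false (not_not.2 this), mul_zero]
        · rw [ind_false ho, zero_mul]
      · rfl
    rw [this, ENNReal.zero_div]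
  rw [lintegral_congr h2, lintegral_zero] at h1
  have h3 := (lintegral_eq_zero_iff (hO.mul hM)).1 h1
  filter_upwards [h3] with w hw
  unfold Om
  constructor
  · intro ho
    refine ⟨ho, ?_⟩
    by_contra hm
    have : ind (X.Op ε w.2 v s) * ind (¬ X.Mt w.1 v s) = 0 := hw
    rw [ind_true ho, ind_true hm] at this
    simp at this
  · exact fun ho => ho.1

/-- The context. -/
theorem mkCtx [Countable H] {ε : ℝ} {μ : Measure (St H S L)} (h : X.IsStar ε μ) (h0 : 0 ≤ ε)
    (h1 : ε ≤ 1) (hS : STRIP2 X ε) (hLab : LAB) (hM : MEAS X) (hL : LOCB X) : Ctx X ε μ where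
  star := h
  nonneg := h0
  le_one := h1
  prob := star_prob X h
  om := star_matched X h
  strip := by
    intro v t K hK hd
    have hφ : Measurable fun x : (unitInterval × unitInterval) × (unitInterval × unitInterval) =>
        ind (¬ ((x.1.1 : ℝ) ^ 2 ≤ ε ∧ (x.2.1 : ℝ) ^ 2 ≤ ε)) := by
      apply measurable_ind
      have m1 : Measurable fun x : (unitInterval × unitInterval) × (unitInterval × unitInterval) =>
          (x.1.1 : ℝ) ^ 2 :=
        (measurable_subtype_coe.comp (measurable_fst.comp measurable_fst)).pow_const 2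
      have m2 : Measurable fun x : (unitInterval × unitInterval) × (unitInterval × unitInterval) =>
          (x.2.1 : ℝ) ^ 2 :=
        (measurable_subtype_coe.comp (measurable_fst.comp measurable_snd)).pow_const 2
      exact ((measurableSet_le m1 measurable_const).inter
        (measurableSet_le m2 measurable_const)).compl
    have h2 := hS μ h v t K hK hd _ hφ
    rw [(hLab ε ε h0 le_rfl h1).1] at h2
    rw [sg, mul_comm, ← h2]
    apply lintegral_congr_ae
    filter_upwards [star_matched X h] with w hw
    show K w * _ = K w * _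
    congr 1
    exact ind_congr (hw v t).symm
  meas := hM
  locb := hL

end Pool.Agent.Helper78.OE
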