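import Pool.Agent.Helper78.OE.LawDefs

/-!
Project OE: the functionals of a run with the in-direction `p` at `v` depend only on `Sd v p`.
-/

open MeasureTheory Pool.Agent.Helper73.OE
open scoped ENNReal

namespace Pool.Agent.Helper78.OE

variable {H S L : Type} [Group H] (X : Sys H S L)

theorem tau_inj {a b : L} (h : X.tau a = X.tau b) : a = b := by
  have := congrArg X.tau h
  rwa [X.tau_tau, X.tau_tau] at this

theorem symm_ne {f : S ≃ L} {p : S} {y : L} (h : f p ≠ y) : f.symm y ≠ p := by
  intro h2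
  apply h
  rw [← h2, f.apply_symm_apply]

/-- Agreement passes to the next vertex of a run. -/
theorem agr_next {O O' : Edges H S} {f f' : Cfg H S L} {v : H} {p t : S}
    (h : Agr X (X.Sd v p) O O' f f') (ht : t ≠ p) :
    (O v t ↔ O' v t) ∧ Agr X (X.Sd (X.nb v t) (X.bar t)) O O' f f' := by
  have hsub := X.branch_subset (v := v) ht
  exact ⟨h.2 v t (X.self_mem_Sd v p) (hsub (X.self_mem_Sd _ _)), h.mono X hsub⟩

theorem matched_nb {O : Edges H S} {f : Cfg H S L} (h : X.MA O Set.univ f) {v : H} {t : S}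
    (ho : O v t) : f (X.nb v t) (X.bar t) = X.tau (f v t) :=
  h v t trivial trivial ho

theorem side_long {O O' : Edges H S} {f f' : Cfg H S L} (hf : X.MA O Set.univ f)
    (r : ℕ) : ∀ (v : H) (p : S) (y : L), Agr X (X.Sd v p) O O' f f' → f v p ≠ y →
      (X.Long O f r v p y ↔ X.Long O' f' r v p y) := by
  induction r with
  | zero => intro v p y _ _; exact Iff.rfl
  | succ r ih =>
    intro v p y h hy
    have hv : f v = f' v := h.1 v (X.self_mem_Sd v p)
    unfold Sys.Long
    rw [← hv]
    obtain ⟨h1, h2⟩ := agr_next X h (symm_ne hy)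
    rw [← h1]
    refine and_congr_right fun ho => ?_
    apply ih _ _ _ h2
    rw [matched_nb X hf ho, (f v).apply_symm_apply]
    intro h3
    exact hy (tau_inj X h3).symm

theorem side_arm {O O' : Edges H S} {f f' : Cfg H S L} (hf : X.MA O Set.univ f)
    (M : ℕ) {v : H} {t : S} {y : L} (h1 : O v t ↔ O' v t)
    (h2 : Agr X (X.Sd (X.nb v t) (X.bar t)) O O' f f') (hy : f v t ≠ y) :
    (X.ArmOk O M f v t y ↔ X.ArmOk O' M f' v t y) := by
  unfold Sys.ArmOk
  rw [← h1]
  refine imp_congr_right fun ho => not_congr ?_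
  apply side_long X hf _ _ _ _ h2
  rw [matched_nb X hf ho]
  intro h3
  exact hy (tau_inj X h3)

theorem side_av {O O' : Edges H S} {f f' : Cfg H S L} (hf : X.MA O Set.univ f)
    (M m : ℕ) : ∀ (v : H) (p : S) (y k : L), Agr X (X.Sd v p) O O' f f' → f v p ≠ y →
      (X.Av O M f m v p y k ↔ X.Av O' M f' m v p y k) := by
  induction m with
  | zero =>
    intro v p y k h hy
    have hv : f v = f' v := h.1 v (X.self_mem_Sd v p)
    unfold Sys.Av
    rw [← hv]
    refine and_congr_right fun hk => and_congr_right fun hk2 => ?_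
    obtain ⟨h1, h2⟩ := agr_next X h (symm_ne hy)
    obtain ⟨h3, h4⟩ := agr_next X h (symm_ne (Ne.symm hk))
    refine and_congr (side_arm X hf M h1 h2 ?_) (side_arm X hf M h3 h4 ?_)
    · rw [(f v).apply_symm_apply]; exact Ne.symm hk2
    · rw [(f v).apply_symm_apply]; exact hk
  | succ m ih =>
    intro v p y k h hy
    have hv : f v = f' v := h.1 v (X.self_mem_Sd v p)
    unfold Sys.Av
    rw [← hv]
    obtain ⟨h1, h2⟩ := agr_next X h (symm_ne hy)
    rw [← h1]
    refine and_congr_right fun ho => ?_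
    apply ih _ _ _ _ h2
    rw [matched_nb X hf ho, (f v).apply_symm_apply]
    intro h3
    exact hy (tau_inj X h3).symm

theorem side_AS [Fintype L] {O O' : Edges H S} {f f' : Cfg H S L} (hf : X.MA O Set.univ f)
    (P : Par) {v : H} {p : S} {y : L} (h : Agr X (X.Sd v p) O O' f f') (hy : f v p ≠ y) :
    X.AS P O f v p y = X.AS P O' f' v p y := by
  unfold Sys.AS
  ext i
  simp only [Finset.mem_filter, Finset.mem_univ, true_and]
  exact side_av X hf _ _ v p y _ h hy

end Pool.Agent.Helper78.OE
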