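import Pool.Agent.Helper78.OE.Side
import Pool.Agent.Helper78.OE.GoalsC1

/-!
Project OE: the calculus of test functions.
-/

open MeasureTheory Pool.Agent.Helper73.OE
open scoped ENNReal

namespace Pool.Agent.Helper78.OE

variable {H S L : Type} [Group H] (X : Sys H S L)

/-- Probability that an edge is open. -/
noncomputable def sg (ε : ℝ) : ℝ≥0∞ := ENNReal.ofReal (1 - ε)

/-- Probability that an arm has at most `M` vertices. -/
noncomputable def pE (M : ℕ) (ε : ℝ) : ℝ≥0∞ := 1 - sg ε ^ (M + 1)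

/-- The hypotheses for all moment computations. -/
structure Ctx [Fintype S] [Fintype L] (ε : ℝ) (μ : Measure (St H S L)) : Prop where
  star : X.IsStar ε μ
  nonneg : 0 ≤ ε
  le_one : ε ≤ 1
  prob : μ Set.univ = 1
  om : ∀ᵐ w ∂μ, ∀ v s, (X.Op ε w.2 v s ↔ Om X ε w v s)
  strip : ∀ (v : H) (t : S) (K : St H S L → ℝ≥0∞), Measurable K → X.DepOn (X.Sd v t) K →
    ∫⁻ w, K w * ind (Om X ε w v t) ∂μ = sg ε * ∫⁻ w, K w ∂μ
  meas : MEAS X
  locb : LOCB X

/-! ### Measurability -/

theorem finite_ball' [Finite S] (v : H) (r : ℕ) : (X.ball v r).Finite := X.finite_ball v r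

/-- A predicate given by finite locality has a measurable indicator. -/
theorem meas_ind_of [Finite S] (hM : MEAS X) (ε : ℝ) {F : Edges H S → Cfg H S L → Prop} {v : H}
    {r : ℕ} (h : ∀ O O' f f', Agr X (X.ball v r) O O' f f' → (F O f ↔ F O' f')) :
    Measurable fun w : St H S L => ind (F (Om X ε w) w.1) := by
  have h2 := (hM (fun O f => ind (F O f)) (X.ball v r) (X.finite_ball v r)
    (fun O O' f f' ha => ind_congr (h O O' f f' ha)) ε).1
  exact h2

theorem meas_om [Finite S] (hM : MEAS X) (ε : ℝ) (v : H) (s : S) :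
    Measurable fun w : St H S L => ind (Om X ε w v s) := by
  refine meas_ind_of X hM ε (F := fun O _ => O v s) (v := v) (r := 1) ?_
  intro O O' f f' h
  refine h.2 v s ?_ ?_
  · rw [X.mem_ball, X.dist_self]; exact Nat.zero_le _
  · rw [X.mem_ball, X.dist_nb_self]

theorem meas_long [Finite S] [Fintype L] (hM : MEAS X) (hL : LOCB X) (ε : ℝ) (r : ℕ) (v : H)
    (p : S) (y : L) : Measurable fun w : St H S L => ind (X.Long (Om X ε w) w.1 r v p y) :=
  meas_ind_of X hM ε (F := fun O f => X.Long O f r v p y)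
    (fun O O' f f' h => (hL O O' f f' v r h p y y).1)

theorem meas_av [Finite S] [Fintype L] (hM : MEAS X) (hL : LOCB X) (ε : ℝ) (M m : ℕ) (v : H)
    (p : S) (y k : L) : Measurable fun w : St H S L => ind (X.Av (Om X ε w) M w.1 m v p y k) :=
  meas_ind_of X hM ε (F := fun O f => X.Av O M f m v p y k)
    (fun O O' f f' h => (hL O O' f f' v (m + M + 1) h p y k).2.1 m M le_rfl)

theorem meas_arm [Finite S] [Fintype L] (hM : MEAS X) (hL : LOCB X) (ε : ℝ) (M : ℕ) (v : H)
    (t : S) (y : L) : Measurable fun w : St H S L => ind (X.ArmOk (Om X ε w) M w.1 v t y) := by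
  refine meas_ind_of X hM ε (F := fun O f => X.ArmOk O M f v t y) (v := v) (r := M + 1) ?_
  intro O O' f f' h
  unfold Sys.ArmOk
  have h0 : v ∈ X.ball v (M + 1) := by rw [X.mem_ball, X.dist_self]; exact Nat.zero_le _
  have h1 : X.nb v t ∈ X.ball v (M + 1) := by rw [X.mem_ball, X.dist_nb_self]; omega
  rw [h.2 v t h0 h1]
  refine imp_congr_right fun _ => not_congr ?_
  refine (hL O O' f f' (X.nb v t) M (h.mono X ?_) (X.bar t) (X.tau y) y).1
  intro z hz
  rw [X.mem_ball] at hz ⊢
  rw [X.dist_comm] at hz ⊢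
  have := X.dist_le_nb z v t
  omega

theorem meas_card [Finite S] [Fintype L] (hM : MEAS X) (hL : LOCB X) (ε : ℝ) (P : Par) (v : H)
    (p : S) (y : L) (φ : ℕ → ℝ≥0∞) :
    Measurable fun w : St H S L => φ (X.AS P (Om X ε w) w.1 v p y).card := by
  have h2 := (hM (fun O f => φ (X.AS P O f v p y).card) (X.ball v (2 * P.J + P.M + 1))
    (X.finite_ball v _)
    (fun O O' f f' ha => by
      rw [(hL O O' f f' v _ ha p y y).2.2.1 P le_rfl]) ε).1
  exact h2

theorem meas_eq (v : H) (σ : S ≃ L) : Measurable fun w : St H S L => ind (w.1 v = σ) := by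
  apply measurable_ind
  have h1 : Measurable fun w : St H S L => w.1 v := (measurable_pi_apply v).comp measurable_fst
  have h2 : MeasurableSet ({σ} : Set (S ≃ L)) := trivial
  exact h1 h2

/-! ### Dependence -/

theorem DepOn.mul {A : Set H} {F G : St H S L → ℝ≥0∞} (hF : X.DepOn A F) (hG : X.DepOn A G) :
    X.DepOn A (fun w => F w * G w) := by
  intro w w' h1 h2
  show F w * G w = F w' * G w'
  rw [hF w w' h1 h2, hG w w' h1 h2]

theorem dep_eq {A : Set H} {v : H} (hv : v ∈ A) (σ : S ≃ L) :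
    X.DepOn A (fun w : St H S L => ind (w.1 v = σ)) := by
  intro w w' h1 _
  show ind (w.1 v = σ) = ind (w'.1 v = σ)
  rw [h1 v hv]

theorem dep_om {A : Set H} {v : H} {t : S} (hv : v ∈ A) (ht : X.nb v t ∈ A) (ε : ℝ) :
    X.DepOn A (fun w : St H S L => ind (Om X ε w v t)) := by
  intro w w' h1 h2
  exact ind_congr ((Om_agr X h1 h2).2 v t hv ht)

/-- If `K` vanishes unless the label at `(v, t)` is different from `κ` then `K` times the indicator
of a short arm depends on `A` if `K` does and `A` contains `v` and the branch beyond `(v, t)`. -/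
theorem dep_arm {A : Set H} {v : H} {t : S} {κ : L} (hA : X.Past v t ⊆ A) (ε : ℝ) (M : ℕ)
    {K : St H S L → ℝ≥0∞} (hK : X.DepOn A K) (hv : ∀ w, w.1 v t = κ → K w = 0) :
    X.DepOn A (fun w : St H S L => K w * ind (X.ArmOk (Om X ε w) M w.1 v t κ)) := by
  intro w w' h1 h2
  show K w * _ = K w' * _
  rw [hK w w' h1 h2]
  by_cases hw : w'.1 v t = κ
  · rw [hv w' hw, zero_mul, zero_mul]
  · congr 1
    apply ind_congr
    have ha := Om_agr X (ε := ε) h1 h2
    have hvA : v ∈ A := hA (X.self_mem_Past v t)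
    refine side_arm X (MA_Om X ε w) M (ha.2 v t hvA (hA (X.nb_mem_Past v t))) (ha.mono X ?_) ?_
    · exact fun z hz => hA (Or.inr hz)
    · rw [h1 v hvA]; exact hw

/-- The same for long runs. -/
theorem dep_long {A : Set H} {v : H} {p : S} {y : L} (hA : X.Sd v p ⊆ A) (ε : ℝ) (r : ℕ)
    {K : St H S L → ℝ≥0∞} (hK : X.DepOn A K) (hv : ∀ w, w.1 v p = y → K w = 0) :
    X.DepOn A (fun w : St H S L => K w * ind (X.Long (Om X ε w) w.1 r v p y)) := by
  intro w w' h1 h2
  show K w * _ = K w' * _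
  rw [hK w w' h1 h2]
  by_cases hw : w'.1 v p = y
  · rw [hv w' hw, zero_mul, zero_mul]
  · congr 1
    apply ind_congr
    have ha := Om_agr X (ε := ε) h1 h2
    refine side_long X (MA_Om X ε w) r v p y (ha.mono X hA) ?_
    rw [h1 v (hA (X.self_mem_Sd v p))]; exact hw

/-! ### Test functions -/

theorem Test.mul_eq {v : H} {p : S} {y : L} {G : St H S L → ℝ≥0∞} (h : Test X v p y G)
    (σ : S ≃ L) : Test X v p y (fun w => G w * ind (w.1 v = σ)) where
  meas := h.meas.mul (meas_eq v σ)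
  dep := DepOn.mul X h.dep (dep_eq X (X.self_mem_Past v p) σ)
  van := fun w hw => by show G w * _ = 0; rw [h.van w hw, zero_mul]
  le_one := fun w => mul_le_one' (h.le_one w) (ind_le_one _)

/-- From a function on the side of `v` to a test function beyond the edge `(v, t)`. -/
theorem test_next [Finite S] (hM : MEAS X) (ε : ℝ) {v : H} {t : S} {κ : L}
    {K : St H S L → ℝ≥0∞} (hm : Measurable K) (hd : X.DepOn (X.Sd v t) K) (h1 : ∀ w, K w ≤ 1)
    (hv : ∀ w, w.1 v t = κ → K w = 0) :
    Test X (X.nb v t) (X.bar t) (X.tau κ) (fun w => K w * ind (Om X ε w v t)) where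
  meas := hm.mul (meas_om X hM ε v t)
  dep := DepOn.mul X (DepOn.mono X hd (X.Sd_subset_Past v t)) (dep_om X
    (X.Sd_subset_Past v t (X.self_mem_Sd v t)) (X.self_mem_Past _ _) ε)
  van := fun w hw => by
    show K w * _ = 0
    by_cases ho : Om X ε w v t
    · have h3 : w.1 (X.nb v t) (X.bar t) = X.tau (w.1 v t) := ho.2
      rw [h3] at hw
      rw [hv w (tau_inj X hw), zero_mul]
    · rw [ind_false ho, mul_zero]
  le_one := fun w => mul_le_one' (h1 w) (ind_le_one _)

open Classical in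
/-- Decomposition according to the configuration at `v`. -/
theorem lintegral_split [Fintype S] [Fintype L] (μ : Measure (St H S L)) (v : H)
    {F : St H S L → ℝ≥0∞} (hF : Measurable F) :
    ∫⁻ w, F w ∂μ = ∑ σ : S ≃ L, ∫⁻ w, F w * ind (w.1 v = σ) ∂μ := by
  rw [← lintegral_finset_sum (f := fun (σ : S ≃ L) (w : St H S L) => F w * ind (w.1 v = σ)) _
    (fun σ _ => hF.mul (meas_eq v σ))]
  apply lintegral_congr
  intro w
  rw [← Finset.mul_sum, Finset.sum_eq_single (w.1 v), ind_true rfl, mul_one]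
  · intro b _ hb
    exact ind_false (Ne.symm hb)
  · intro h
    exact absurd (Finset.mem_univ _) h

open Classical in
/-- It is enough to prove an inequality on every event `w.1 v = σ`. -/
theorem le_of_split [Fintype S] [Fintype L] (μ : Measure (St H S L)) (v : H)
    {F G : St H S L → ℝ≥0∞} (hF : Measurable F) (hG : Measurable G) (c : ℝ≥0∞)
    (h : ∀ σ : S ≃ L, ∫⁻ w, F w * ind (w.1 v = σ) ∂μ ≤ c * ∫⁻ w, G w * ind (w.1 v = σ) ∂μ) :
    ∫⁻ w, F w ∂μ ≤ c * ∫⁻ w, G w ∂μ := by
  rw [lintegral_split μ v hF, lintegral_split μ v hG, Finset.mul_sum]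
  exact Finset.sum_le_sum fun σ _ => h σ

open Classical in
theorem eq_of_split [Fintype S] [Fintype L] (μ : Measure (St H S L)) (v : H)
    {F G : St H S L → ℝ≥0∞} (hF : Measurable F) (hG : Measurable G) (c : ℝ≥0∞)
    (h : ∀ σ : S ≃ L, ∫⁻ w, F w * ind (w.1 v = σ) ∂μ = c * ∫⁻ w, G w * ind (w.1 v = σ) ∂μ) :
    ∫⁻ w, F w ∂μ = c * ∫⁻ w, G w ∂μ := by
  rw [lintegral_split μ v hF, lintegral_split μ v hG, Finset.mul_sum]
  exact Finset.sum_congr rfl fun σ _ => h σ

end Pool.Agent.Helper78.OE
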